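import Pool.Agent.R432.JL.Stm
import Pool.Agent.R419.CF.Box

/-! Project JL: the count in a box, joint version. -/

set_option autoImplicit false

open scoped Classical

namespace Pool.Agent.R432.JL

open Finset
open Pool.Agent.Y703.CX
open Pool.Agent.Y911.CX
open Pool.Agent.R419.CF
open Pool.Agent.Y699.E (ez)

namespace BoxJ

theorem M0_sub (M : Finset ℕ) (e : M → ZMod 3) : M0 M e ⊆ M := filter_subset _ _

theorem M2_sub (M : Finset ℕ) (e : M → ZMod 3) {S₀ : Finset ℕ} (hM : M ⊆ S₀) :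
    M2 M e ⊆ S₀ \ M0 M e := by
  intro q hq
  unfold M2 at hq
  rw [mem_filter] at hq
  rw [mem_sdiff]
  refine ⟨hM hq.1, fun h => ?_⟩
  unfold M0 at h
  rw [mem_filter] at h
  rw [hq.2] at h
  exact absurd h.2 (by decide)

/-- the weight is the exponent outside `M0` -/
theorem wt_eq_ex {M : Finset ℕ} (e : M → ZMod 3) {q : ℕ} (hq : q ∉ M0 M e) :
    wt (M2 M e) q = ex M e q := by
  unfold wt
  by_cases h : q ∈ M2 M e
  · rw [if_pos h]
    unfold M2 at h
    exact (mem_filter.1 h).2.symm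
  · rw [if_neg h]
    by_cases hM : q ∈ M
    · have h0 : ex M e q ≠ 0 := fun h0 => hq (by unfold M0; exact mem_filter.2 ⟨hM, h0⟩)
      have h2 : ex M e q ≠ 2 := fun h2 => h (by unfold M2; exact mem_filter.2 ⟨hM, h2⟩)
      generalize ex M e q = t at *
      revert t
      decide
    · unfold ex
      rw [dif_neg hM]

/-- the inclusion -/
def inc {S₀ M0' : Finset ℕ} (u : ↥(S₀ \ M0')) : ↥S₀ := ⟨u, (mem_sdiff.1 u.2).1⟩

theorem sum_inc {S₀ M0' : Finset ℕ} (f : S₀ → ZMod 3) (hf : ∀ u : S₀, (u : ℕ) ∈ M0' → f u = 0) :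
    ∑ x : ↥(S₀ \ M0'), f (inc x) = ∑ x : S₀, f x := by
  have h1 : ∑ x : ↥(S₀ \ M0'), f (inc x) = ∑ x ∈ S₀ \ M0', (if h : x ∈ S₀ then f ⟨x, h⟩ else 0) := by
    rw [← Finset.sum_coe_sort (S₀ \ M0')]
    refine sum_congr rfl fun u _ => ?_
    rw [dif_pos (mem_sdiff.1 u.2).1]
    rfl
  have h2 : ∑ x : S₀, f x = ∑ x ∈ S₀, (if h : x ∈ S₀ then f ⟨x, h⟩ else 0) := by
    rw [← Finset.sum_coe_sort S₀]
    refine sum_congr rfl fun u _ => ?_
    rw [dif_pos u.2]
  rw [h1, h2]
  refine sum_subset sdiff_subset fun x hx hx' => ?_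
  have : x ∈ M0' := by
    by_contra h
    exact hx' (mem_sdiff.2 ⟨hx, h⟩)
  rw [dif_pos hx]
  exact hf ⟨x, hx⟩ this

/-- extension by zero -/
noncomputable def ext0 {S₀ M0' : Finset ℕ} (v : ↥(S₀ \ M0') → ZMod 3) (u : S₀) : ZMod 3 :=
  if h : (u : ℕ) ∈ S₀ \ M0' then v ⟨u, h⟩ else 0

theorem ext0_inc {S₀ M0' : Finset ℕ} (v : ↥(S₀ \ M0') → ZMod 3) (u : ↥(S₀ \ M0')) :
    ext0 v (inc u) = v u := by
  unfold ext0
  rw [dif_pos (show ((inc u : ↥S₀) : ℕ) ∈ S₀ \ M0' from u.2)]
  rfl

theorem ext0_zero {S₀ M0' : Finset ℕ} (v : ↥(S₀ \ M0') → ZMod 3) (u : S₀) (h : (u : ℕ) ∈ M0') :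
    ext0 v u = 0 := by
  unfold ext0
  rw [dif_neg]
  exact fun h' => (mem_sdiff.1 h').2 h

/-- the good labels, joint version -/
def LNJ {ι : Type} (M : Finset ℕ) (a b : ℕ) (S₀ : Finset ℕ) (J1 : Finset ι)
    (β : ι → (S₀ → ZMod 3) × (S₀ → ZMod 3)) : Prop :=
  LN S₀ J1 β ∧
  (∀ w : ℕ → ZMod 3, (∃ q ∈ M, w q ≠ 0) → a * S₀.card + b ≤
    (J1.filter fun i => ∑ u : S₀, (if (u : ℕ) ∈ M then w u else 0) * (β i).2 u ≠ 0).card) ∧
  a * S₀.card + b ≤ J1.card

section one
variable {ι : Type} [Fintype ι] {J1 : Finset ι} {M S₀ : Finset ℕ} {p : ι → ℕ}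

theorem ndj_iff (a b : ℕ) (hM : M ⊆ S₀) (hp : Function.Injective p)
    (hJ : ∀ i, p i % 3 = 1 ↔ i ∈ J1) :
    NdJ M a b S₀ (univ.image p) ↔ LNJ M a b S₀ J1 (fun i => lb S₀ (p i)) := by
  have hc : ∀ (T : ℕ → Prop) [DecidablePred T], ((univ.image p).filter fun x => x % 3 = 1 ∧ T x).card =
      (J1.filter fun i => T (p i)).card := by
    intro T _
    rw [im_filter hJ, Finset.card_image_of_injective _ hp]
  have hc2 : ((univ.image p).filter fun x => x % 3 = 1).card = J1.card := by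
    have := hc (fun _ => True)
    simpa using this
  have hs : ∀ (w : ℕ → ZMod 3) (x : ℕ), ∑ q ∈ M, w q * lam x q =
      ∑ u : S₀, (if (u : ℕ) ∈ M then w u else 0) * (lb S₀ x).2 u := by
    intro w x
    have h1 : ∑ u : S₀, (if (u : ℕ) ∈ M then w u else 0) * (lb S₀ x).2 u =
        ∑ u ∈ S₀, (if u ∈ M then w u else 0) * lam x u := by
      rw [← Finset.sum_coe_sort S₀]
      rfl
    rw [h1]
    rw [← sum_subset hM]
    · refine sum_congr rfl fun q hq => ?_
      rw [if_pos hq]
    · intro q _ hq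
      rw [if_neg hq, zero_mul]
  unfold NdJ LNJ
  refine and_congr (nd_iff hp hJ) (and_congr ?_ ?_)
  · refine forall_congr' fun w => imp_congr_right fun _ => ?_
    rw [hc]
    simp only [hs]
  · rw [hc2]

end one

theorem gdw_e {ι : Type} [Fintype ι] {J1 : Finset ι} {M S₀ : Finset ℕ} {p : ι → ℕ} (hM : M ⊆ S₀)
    (hp : Function.Injective p) (hd : ∀ i, p i ∉ S₀) (hne : J1.Nonempty)
    (hJ : ∀ i, p i % 3 = 1 ↔ i ∈ J1) (e : M → ZMod 3) :
    GdW (M2 M e) ((S₀ ∪ univ.image p) \ M0 M e) ↔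
      GdA (univ.filter fun u : ↥(S₀ \ M0 M e) => (u : ℕ) % 3 = 1) J1
      (fun u v : ↥(S₀ \ M0 M e) => wt (M2 M e) v * lam u v)
      (fun (u : ↥(S₀ \ M0 M e)) l => ((lb S₀ (p l)).1 (inc u)))
      (fun k (u : ↥(S₀ \ M0 M e)) => wt (M2 M e) u * ((lb S₀ (p k)).2 (inc u)))
      (Pool.Agent.Y703.CX.ext fun e : prs J1 => lam (p e.1.1) (p e.1.2)) := by
  have h1 : (S₀ ∪ univ.image p) \ M0 M e = (S₀ \ M0 M e) ∪ univ.image p := by
    rw [union_sdiff_distrib]
    congr 1
    rw [Finset.sdiff_eq_self_iff_disjoint, Finset.disjoint_left]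
    intro x hx hx'
    rw [mem_image] at hx
    obtain ⟨i, -, rfl⟩ := hx
    exact hd i (hM (M0_sub M e hx'))
  rw [h1]
  exact gdw_iff (M2_sub M e hM) hp (fun i h => hd i (mem_sdiff.1 h).1) hne hJ

end BoxJ

open BoxJ

/-- **The count in a box, joint version.** -/
theorem boxj : S_BOXJ := by
  intro hEQ hLA M T ε hMp hε
  obtain ⟨a, b, hab⟩ := hLA T ε hε
  refine ⟨a, b, ?_⟩
  intro ι _ J1 C X κ S₀ hM hκ hCX hHB hS₀ hC hdis hne hcard
  have hcE : Fintype.card T = T.card := Fintype.card_coe T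
  rw [hcE] at hab
  set R : ℝ := 3 ^ (prs J1).card * (κ * ∏ j, (X j : ℝ)) with hR
  have hR0 : 0 ≤ R := mul_nonneg (by positivity)
    (mul_nonneg hκ (Finset.prod_nonneg fun j _ => by positivity))
  -- facts on tuples
  have hinj : ∀ p ∈ Fintype.piFinset C, Function.Injective p := by
    intro p hp i j hij
    rw [Fintype.mem_piFinset] at hp
    by_contra hne
    have h1 := Finset.disjoint_left.1 (hdis i j hne) (hp i)
    rw [hij] at h1
    exact h1 (hp j)
  have hJ : ∀ p ∈ Fintype.piFinset C, ∀ i, p i % 3 = 1 ↔ i ∈ J1 := by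
    intro p hp i
    rw [Fintype.mem_piFinset] at hp
    obtain ⟨-, -, h1, h2⟩ := hC i _ (hp i)
    constructor
    · intro h
      by_contra h3
      have := h2 h3
      omega
    · exact h1
  have hd : ∀ p ∈ Fintype.piFinset C, ∀ i, p i ∉ S₀ := by
    intro p hp i
    rw [Fintype.mem_piFinset] at hp
    exact (hC i _ (hp i)).2.1
  -- the exceptional index
  obtain ⟨ks, hks⟩ : ∃ ks : ι, ∀ l, l ∉ J1 → l = ks := by
    by_cases h : ∃ l, l ∉ J1
    · obtain ⟨l, hl⟩ := h
      refine ⟨l, fun l' hl' => ?_⟩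
      have h1 : (univ \ J1).card ≤ 1 := by omega
      rw [Finset.card_le_one] at h1
      exact h1 l' (Finset.mem_sdiff.2 ⟨Finset.mem_univ _, hl'⟩) l
        (Finset.mem_sdiff.2 ⟨Finset.mem_univ _, hl⟩)
    · push Not at h
      obtain ⟨k, -⟩ := hne
      exact ⟨k, fun l hl => absurd (h l) hl⟩
  have hcount : ∀ e : M → ZMod 3, Fintype.card ↥(S₀ \ M0 M e) + Fintype.card ι =
      (univ.filter fun u : ↥(S₀ \ M0 M e) => (u : ℕ) % 3 = 1).card + J1.card + 1 := by
    intro e
    set S := S₀ \ M0 M e with hS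
    have h1 : (univ \ J1).card + J1.card = Fintype.card ι := by
      rw [Finset.card_sdiff_add_card_eq_card (Finset.subset_univ _), Finset.card_univ]
    have h2 : (univ.filter fun u : S => (u : ℕ) % 3 = 1).card =
        (S.filter fun p => p % 3 = 1).card := by
      rw [← Finset.card_map (Function.Embedding.subtype (· ∈ S))]
      congr 1
      ext x
      simp only [Finset.mem_map, Finset.mem_filter, Finset.mem_univ, true_and,
        Function.Embedding.coe_subtype]
      constructor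
      · rintro ⟨u, hu, rfl⟩
        exact ⟨u.2, hu⟩
      · rintro ⟨h, h'⟩
        exact ⟨⟨x, h⟩, h', rfl⟩
    have h3 : (S.filter fun p => p % 3 = 1).card + (S.filter fun p => p % 3 = 2).card =
        S.card := by
      rw [← Finset.card_filter_add_card_filter_not (s := S) (fun p => p % 3 = 1)]
      congr 2
      refine Finset.filter_congr fun x hx => ?_
      have h4 := hS₀ x (mem_sdiff.1 hx).1
      have h5 : x % 3 ≠ 0 := by
        intro h0
        have := (Nat.prime_dvd_prime_iff_eq Nat.prime_three h4.1).1 (Nat.dvd_of_mod_eq_zero h0)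
        exact h4.2 this.symm
      omega
    have h6 : (S.filter fun p => p % 3 = 2) = (S₀.filter fun p => p % 3 = 2) := by
      ext x
      rw [mem_filter, mem_filter, hS, mem_sdiff]
      constructor
      · rintro ⟨⟨h, -⟩, h'⟩
        exact ⟨h, h'⟩
      · rintro ⟨h, h'⟩
        refine ⟨⟨h, fun h0 => ?_⟩, h'⟩
        have := (hMp x (M0_sub M e h0)).2
        omega
    rw [h6] at h3
    rw [Fintype.card_coe, h2]
    omega
  -- the part with given labels
  have h1 : ∀ β : ι → (S₀ → ZMod 3) × (S₀ → ZMod 3), LNJ M a b S₀ J1 β →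
      |(((Fintype.piFinset C).filter fun p => (fun i => lb S₀ (p i)) = β ∧
          GJ M T (S₀ ∪ univ.image p)).card : ℝ) -
        c3 ^ T.card *
          (((Fintype.piFinset C).filter fun p => (fun i => lb S₀ (p i)) = β).card : ℝ)| ≤
      ε * (((Fintype.piFinset C).filter fun p => (fun i => lb S₀ (p i)) = β).card : ℝ) + R := by
    intro β hβ
    set C' : ι → Finset ℕ := fun i => (C i).filter fun q => lb S₀ q = β i with hC'
    have hpi : (Fintype.piFinset C).filter (fun p => (fun i => lb S₀ (p i)) = β) =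
        Fintype.piFinset C' := by
      ext p
      simp only [Finset.mem_filter, Fintype.mem_piFinset, hC']
      constructor
      · rintro ⟨h2, h3⟩ i
        exact ⟨h2 i, congrFun h3 i⟩
      · intro h2
        exact ⟨fun i => (h2 i).1, funext fun i => (h2 i).2⟩
    have h2 := hab ι (fun e => ↥(S₀ \ M0 M e.1))
      (fun e => univ.filter fun u : ↥(S₀ \ M0 M e.1) => (u : ℕ) % 3 = 1) J1 ks S₀.card
      (fun e => hcount e.1)
      (fun e => by rw [Fintype.card_coe]; exact card_le_card sdiff_subset) hks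
      (fun e u v => wt (M2 M e.1) v * lam u v)
      (fun e (u : ↥(S₀ \ M0 M e.1)) l => (β l).1 (inc u))
      (fun e k (u : ↥(S₀ \ M0 M e.1)) => wt (M2 M e.1) u * (β k).2 (inc u))
      (by
        rintro ⟨e, he⟩ v ⟨u, hu, hv⟩
        have h3 := hβ.1.1 (ext0 v) ⟨inc u, (Finset.mem_filter.1 hu).2, by rw [ext0_inc]; exact hv⟩
        obtain ⟨l, hl, hlk⟩ := Finset.exists_mem_ne (lt_of_lt_of_le one_lt_two h3) ks
        refine ⟨l, hlk, fun h0 => (Finset.mem_filter.1 hl).2 ?_⟩
        rw [← h0, Finset.sum_filter, Finset.sum_filter,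
          ← sum_inc (M0' := M0 M e) (fun x : S₀ => if (x : ℕ) % 3 = 1 then
            ext0 v x * (β l).1 x else 0)]
        · refine sum_congr rfl fun x _ => ?_
          rw [ext0_inc]
          rfl
        · intro x hx
          rw [ext0_zero v x hx, zero_mul, ite_self])
      (by
        rintro ⟨e, he⟩ w ⟨u, hu⟩
        have hn0 : wt (M2 M e) u ≠ 0 := wt_ne _ _
        obtain ⟨k, hk, hk2⟩ := hβ.1.2 (ext0 fun u => w u * wt (M2 M e) u)
          ⟨inc u, by rw [ext0_inc]; exact mul_ne_zero hu hn0⟩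
        refine ⟨k, hk, fun h0 => hk2 ?_⟩
        rw [← h0, ← sum_inc (M0' := M0 M e) (fun x : S₀ =>
          ext0 (fun u => w u * wt (M2 M e) u) x * (β k).2 x)]
        · refine sum_congr rfl fun x _ => ?_
          rw [ext0_inc, mul_assoc]
        · intro x hx
          rw [ext0_zero _ x hx, zero_mul])
      (by
        rintro ⟨e, he⟩ ⟨e', he'⟩ hee
        have hne' : ∃ q ∈ M, (fun q => ex M e q - ex M e' q) q ≠ 0 := by
          by_contra hcon
          push Not at hcon
          apply hee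
          apply Subtype.ext
          funext q
          have := hcon q q.2
          unfold ex at this
          rw [dif_pos q.2, dif_pos q.2] at this
          exact sub_eq_zero.1 this
        have h3 := hβ.2.1 (fun q => ex M e q - ex M e' q) hne'
        refine h3.trans (card_le_card fun k hk => ?_)
        rw [mem_filter] at hk ⊢
        refine ⟨hk.1, fun h0 => hk.2 ?_⟩
        have hsum : ∀ e : M → ZMod 3, ∑ x : ↥(S₀ \ M0 M e), wt (M2 M e) x * (β k).2 (inc x) =
            ∑ x : S₀, ex M e x * (β k).2 x := by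
          intro e
          rw [← sum_inc (M0' := M0 M e) (fun x : S₀ => ex M e x * (β k).2 x)]
          · refine sum_congr rfl fun x _ => ?_
            rw [wt_eq_ex e (mem_sdiff.1 x.2).2]
            rfl
          · intro x hx
            have : ex M e x = 0 := by
              unfold M0 at hx
              exact (mem_filter.1 hx).2
            rw [this, zero_mul]
        rw [hsum e, hsum e'] at h0
        have h4 : ∑ u : S₀, (if (u : ℕ) ∈ M then ex M e u - ex M e' u else 0) * (β k).2 u =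
            ∑ x : S₀, ex M e x * (β k).2 x - ∑ x : S₀, ex M e' x * (β k).2 x := by
          rw [← sum_sub_distrib]
          refine sum_congr rfl fun x _ => ?_
          by_cases hx : (x : ℕ) ∈ M
          · rw [if_pos hx]; ring
          · rw [if_neg hx]
            unfold ex
            rw [dif_neg hx, dif_neg hx]
            ring
        exact h4.trans (sub_eq_zero.2 h0))
      hβ.2.2
    obtain ⟨Q, hQ⟩ : ∃ Q : (prs J1 → ZMod 3) → Prop, ∀ α, Q α ↔ ∀ e : T,
      GdA (univ.filter fun u : ↥(S₀ \ M0 M e.1) => (u : ℕ) % 3 = 1)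
      J1 (fun u v : ↥(S₀ \ M0 M e.1) => wt (M2 M e.1) v * lam u v)
      (fun (u : ↥(S₀ \ M0 M e.1)) l => (β l).1 (inc u))
      (fun k (u : ↥(S₀ \ M0 M e.1)) => wt (M2 M e.1) u * (β k).2 (inc u))
      (Pool.Agent.Y703.CX.ext α) := ⟨_, fun _ => Iff.rfl⟩
    have h2' : |((univ.filter Q).card : ℝ) / 3 ^ (prs J1).card - c3 ^ T.card| ≤ ε := by
      have hfe : univ.filter Q = univ.filter fun α : prs J1 → ZMod 3 => ∀ e : T,
        GdA (univ.filter fun u : ↥(S₀ \ M0 M e.1) => (u : ℕ) % 3 = 1)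
        J1 (fun u v : ↥(S₀ \ M0 M e.1) => wt (M2 M e.1) v * lam u v)
        (fun (u : ↥(S₀ \ M0 M e.1)) l => (β l).1 (inc u))
        (fun k (u : ↥(S₀ \ M0 M e.1)) => wt (M2 M e.1) u * (β k).2 (inc u))
        (Pool.Agent.Y703.CX.ext α) := filter_congr fun α _ => hQ α
      rw [hfe]
      convert h2
    have h3 := hEQ ι J1 C' X κ hκ
      (fun i => (Finset.card_le_card (Finset.filter_subset _ _)).trans (hCX i))
      (HB_sub hHB fun i q => lb S₀ q = β i) Q
    have h4 : ((Fintype.piFinset C).filter fun p => (fun i => lb S₀ (p i)) = β ∧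
        GJ M T (S₀ ∪ univ.image p)) = ((Fintype.piFinset C').filter fun p =>
          Q fun e => lam (p e.1.1) (p e.1.2)) := by
      rw [← hpi, Finset.filter_filter]
      refine Finset.filter_congr fun p hp => ?_
      refine and_congr_right fun hl => ?_
      unfold GJ
      rw [hQ]
      refine Iff.trans (b := ∀ e : T, GdW (M2 M e.1) ((S₀ ∪ univ.image p) \ M0 M e.1)) ?_ ?_
      · exact ⟨fun h e => h e.1 e.2, fun h e he => h ⟨e, he⟩⟩
      · refine forall_congr' fun e => ?_
        rw [gdw_e hM (hinj p hp) (hd p hp) hne (hJ p hp)]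
        subst hl
        exact Iff.rfl
    have h5 : (((Fintype.piFinset C').card : ℕ) : ℝ) = ∏ j, ((C' j).card : ℝ) := by
      rw [Fintype.card_piFinset]
      push_cast
      rfl
    rw [h4, hpi, h5]
    set n : ℝ := (((Fintype.piFinset C').filter fun p =>
          Q fun e => lam (p e.1.1) (p e.1.2)).card : ℝ) with hn
    set q : ℝ := ((univ.filter Q).card : ℝ) / 3 ^ (prs J1).card with hq
    set P : ℝ := ∏ j, ((C' j).card : ℝ) with hP
    have hP0 : 0 ≤ P := Finset.prod_nonneg fun j _ => by positivity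
    have h6 : |n - c3 ^ T.card * P| ≤ |n - q * P| + |q - c3 ^ T.card| * P := by
      have h7 : n - c3 ^ T.card * P = (n - q * P) + (q - c3 ^ T.card) * P := by ring
      have h8 : |(q - c3 ^ T.card) * P| = |q - c3 ^ T.card| * P := by
        rw [abs_mul, abs_of_nonneg hP0]
      rw [h7, ← h8]
      exact abs_add_le _ _
    have h7 : |q - c3 ^ T.card| * P ≤ ε * P := mul_le_mul_of_nonneg_right h2' hP0
    have h8 : |n - q * P| ≤ R := h3
    linarith
  -- sum over the labels
  set LL := univ.filter (fun β : ι → (S₀ → ZMod 3) × (S₀ → ZMod 3) => LNJ M a b S₀ J1 β) with hLL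
  have hfib : ∀ T' : (ι → ℕ) → Prop,
      (((Fintype.piFinset C).filter fun p => NdJ M a b S₀ (univ.image p) ∧ T' p).card : ℝ) =
      ∑ β ∈ LL, (((Fintype.piFinset C).filter fun p =>
        (fun i => lb S₀ (p i)) = β ∧ T' p).card : ℝ) := by
    intro T'
    rw [Finset.card_eq_sum_card_fiberwise (f := fun (p : ι → ℕ) (i : ι) => lb S₀ (p i))
      (t := LL) (by
        intro p hp
        rw [Finset.mem_coe, Finset.mem_filter] at hp
        rw [Finset.mem_coe, hLL, Finset.mem_filter]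
        exact ⟨Finset.mem_univ _, (ndj_iff a b hM (hinj p hp.1) (hJ p hp.1)).1 hp.2.1⟩)]
    push_cast
    refine Finset.sum_congr rfl fun β hβ => ?_
    rw [hLL, Finset.mem_filter] at hβ
    congr 2
    ext p
    simp only [Finset.mem_filter]
    constructor
    · rintro ⟨⟨h3, h4, h4'⟩, h5⟩
      exact ⟨h3, h5, h4'⟩
    · rintro ⟨h3, h4, h5⟩
      refine ⟨⟨h3, ?_, h5⟩, h4⟩
      rw [ndj_iff a b hM (hinj p h3) (hJ p h3), h4]
      exact hβ.2
  have hf1 := hfib fun p => GJ M T (S₀ ∪ univ.image p)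
  have hf2 := hfib fun _ => True
  simp only [and_true] at hf2
  rw [hf1, hf2, Finset.mul_sum, ← Finset.sum_sub_distrib]
  refine (Finset.abs_sum_le_sum_abs _ _).trans ?_
  refine (Finset.sum_le_sum fun β hβ => h1 β (Finset.mem_filter.1 hβ).2).trans ?_
  rw [Finset.sum_add_distrib, ← Finset.mul_sum, Finset.sum_const, nsmul_eq_mul]
  have h5 : ((LL.card : ℕ) : ℝ) ≤ 3 ^ (2 * S₀.card * Fintype.card ι) := by
    have h6 : LL.card ≤ Fintype.card (ι → (S₀ → ZMod 3) × (S₀ → ZMod 3)) :=
      Finset.card_le_univ _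
    rw [Fintype.card_fun, Fintype.card_prod, Fintype.card_fun, ZMod.card, Fintype.card_coe,
      ← pow_add, ← two_mul, ← pow_mul] at h6
    exact_mod_cast h6
  have h6 := mul_le_mul_of_nonneg_right h5 hR0
  rw [pow_add, mul_assoc]
  linarith

end Pool.Agent.R432.JL

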