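import Pool.Agent.R432.JL.Stm
import Pool.Agent.R419.CF.Asy

/-!
# Project JL: the sum over the boxes and the asymptotics (JL-FIN)

Adapted from `R419/CF/Key.lean` and `R419/CF/Asy.lean`.
-/

set_option autoImplicit false

open scoped Classical

namespace Pool.Agent.R432.JL.Fin

open Finset Filter
open Pool.Agent.Y703.CX
open Pool.Agent.Y911.CX
open Pool.Agent.R419.CF
open Pool.Agent.R419.CF.Asy
open Pool.Agent.R432.JL
open Pool.Agent.Y699.E (ez)

/-- the limit -/
noncomputable def cJ {M : Finset ℕ} (Te : Finset (M → ZMod 3)) : ℝ := c3 ^ Te.card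

/-- the conclusion of `S_BOXJ` -/
def BoxP (M : Finset ℕ) (Te : Finset (M → ZMod 3)) (ε : ℝ) (a b : ℕ) : Prop := ∀ (ι : Type) [Fintype ι] (J1 : Finset ι)
    (C : ι → Finset ℕ) (X : ι → ℕ) (κ : ℝ) (S₀ : Finset ℕ), M ⊆ S₀ → 0 ≤ κ →
    (∀ i, (C i).card ≤ X i) → HB J1 C X κ → (∀ u ∈ S₀, u.Prime ∧ u ≠ 3) →
    (∀ i, ∀ p ∈ C i, p.Prime ∧ p ∉ S₀ ∧ (i ∈ J1 → p % 3 = 1) ∧ (i ∉ J1 → p % 3 = 2)) →
    (∀ i l, i ≠ l → Disjoint (C i) (C l)) → J1.Nonempty →
    (S₀.filter fun p => p % 3 = 2).card + (univ \ J1).card = 1 →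
    |(((Fintype.piFinset C).filter fun p => NdJ M a b S₀ (univ.image p) ∧
        GJ M Te (S₀ ∪ univ.image p)).card : ℝ) -
      c3 ^ Te.card *
        (((Fintype.piFinset C).filter fun p => NdJ M a b S₀ (univ.image p)).card : ℝ)| ≤
    ε * (((Fintype.piFinset C).filter fun p => NdJ M a b S₀ (univ.image p)).card : ℝ) +
    3 ^ (2 * S₀.card * Fintype.card ι + (prs J1).card) * (κ * ∏ j, (X j : ℝ))

theorem box_dec {M : Finset ℕ} {Te : Finset (M → ZMod 3)} {ε : ℝ} {a b : ℕ} (h : BoxP M Te ε a b) (ι : Type) [Fintype ι]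
    [inst : DecidableEq ι] (J1 : Finset ι)
    (C : ι → Finset ℕ) (X : ι → ℕ) (κ : ℝ) (S₀ : Finset ℕ) (hM : M ⊆ S₀) (h1 : 0 ≤ κ)
    (h2 : ∀ i, (C i).card ≤ X i) (h3 : HB J1 C X κ) (h4 : ∀ u ∈ S₀, u.Prime ∧ u ≠ 3)
    (h5 : ∀ i, ∀ p ∈ C i, p.Prime ∧ p ∉ S₀ ∧ (i ∈ J1 → p % 3 = 1) ∧ (i ∉ J1 → p % 3 = 2))
    (h6 : ∀ i l, i ≠ l → Disjoint (C i) (C l)) (h7 : J1.Nonempty)
    (h8 : (S₀.filter fun p => p % 3 = 2).card + (univ \ J1).card = 1) :
    |(((Fintype.piFinset C).filter fun p => NdJ M a b S₀ (univ.image p) ∧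
        GJ M Te (S₀ ∪ univ.image p)).card : ℝ) -
      cJ Te * (((Fintype.piFinset C).filter fun p => NdJ M a b S₀ (univ.image p)).card : ℝ)| ≤
    ε *
      (((Fintype.piFinset C).filter fun p => NdJ M a b S₀ (univ.image p)).card : ℝ) +
    3 ^ (2 * S₀.card * Fintype.card ι + (prs J1).card) * (κ * ∏ j, (X j : ℝ)) := by
  have e : inst = fun a b => Classical.propDecidable _ := Subsingleton.elim _ _
  subst e
  exact h ι J1 C X κ S₀ hM h1 h2 h3 h4 h5 h6 h7 h8

theorem perj_key {M : Finset ℕ} {Te : Finset (M → ZMod 3)} {ε : ℝ} (hε : 0 ≤ ε) {a b : ℕ} (hB : BoxP M Te ε a b) {X z H K : ℕ}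
    (hMz : ∀ q ∈ M, q ≤ z) (hH : 1 ≤ H)
    {κ : ℝ} (hκ : 0 ≤ κ) {S₀ : Finset ℕ} {J : Finset (ℕ × ℕ)} (hk : KPW M X z H K 0 S₀ J)
    (hHB : HB (univ.filter fun e : J => e.1.2 % 3 = 1) (fun i : J => CC z H i)
      (fun i => XX H i.1.1) κ) :
    |(((RRW M X z H K 0).filter fun S => ky z H S = (S₀, J) ∧
        (NdJ M a b (sm z S) (la z S) ∧ GJ M Te S)).card : ℝ) -
      cJ Te * (((RRW M X z H K 0).filter fun S => ky z H S = (S₀, J) ∧
        NdJ M a b (sm z S) (la z S)).card : ℝ)| ≤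
    ε * (((RRW M X z H K 0).filter fun S => ky z H S = (S₀, J)).card : ℝ) +
      (3 ^ (3 * K ^ 2) * κ) * (X / ((∏ p ∈ S₀, p : ℕ) : ℝ)) := by
  set J1 : Finset J := univ.filter fun e : J => e.1.2 % 3 = 1 with hJ1
  have c1 : ∀ c, (univ.filter fun e : J => e.1.2 % 3 = c).card =
      (J.filter fun e => e.2 % 3 = c).card := by
    intro c
    rw [← Finset.card_map (Function.Embedding.subtype (· ∈ J))]
    congr 1
    ext x
    simp only [Finset.mem_map, Finset.mem_filter, Finset.mem_univ, true_and,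
      Function.Embedding.coe_subtype]
    constructor
    · rintro ⟨u, hu, rfl⟩
      exact ⟨u.2, hu⟩
    · rintro ⟨h, h'⟩
      exact ⟨⟨x, h⟩, h', rfl⟩
  have c2 : univ \ J1 = univ.filter fun e : J => e.1.2 % 3 = 2 := by
    ext e
    rw [Finset.mem_sdiff, hJ1, Finset.mem_filter, Finset.mem_filter]
    have := hk.ne e e.2
    simp only [Finset.mem_univ, true_and]
    omega
  have hfew : S₀.card + 0 < J1.card := by
    rw [hJ1, c1]
    exact hk.few
  have hbox := box_dec hB J J1 (fun i => CC z H i) (fun i => XX H i.1.1) κ S₀ hk.sub hκ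
    (fun i => by
      refine (Finset.card_filter_le _ _).trans ?_
      rw [Nat.card_Icc]
      omega)
    hHB hk.pr
    (fun i p hp => by
      obtain ⟨h3, h3', h4, h5⟩ := CC_facts hH hp
      refine ⟨h3, fun h => ?_, fun h => ?_, fun h => ?_⟩
      · have := hk.le p h
        omega
      · exact h5.trans (Finset.mem_filter.1 h).2
      · have h6 : ¬ i.1.2 % 3 = 1 := fun h' => h (Finset.mem_filter.2 ⟨Finset.mem_univ _, h'⟩)
        have h7 := hk.ne i i.2
        omega)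
    (fun i l hil => by
      rw [Finset.disjoint_left]
      intro p hp hp'
      have h5 := ((mem_CC hH).1 hp).2.2
      have h6 := ((mem_CC hH).1 hp').2.2
      exact hil (Subtype.ext (h5.symm.trans h6)))
    (by
      rw [← Finset.card_pos]
      omega)
    (by
      rw [c2, c1]
      exact hk.one)
  have e1 : ((Fintype.piFinset fun i : J => CC z H i).filter fun p => NdJ M a b S₀ (univ.image p) ∧
      GJ M Te (S₀ ∪ univ.image p)).card = ((RRW M X z H K 0).filter fun S => ky z H S = (S₀, J) ∧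
        (NdJ M a b (sm z S) (la z S) ∧ GJ M Te S)).card := by
    rw [← keyw_bij hMz hH hk (fun S => NdJ M a b (sm z S) (la z S) ∧ GJ M Te S)]
    congr 1
    refine Finset.filter_congr fun p hp => ?_
    rw [Fintype.mem_piFinset] at hp
    rw [sm_fill hH hk.le hp, la_fill hH hk.le hp]
  have e2 : ((Fintype.piFinset fun i : J => CC z H i).filter fun p =>
      NdJ M a b S₀ (univ.image p)).card = ((RRW M X z H K 0).filter fun S => ky z H S = (S₀, J) ∧
        NdJ M a b (sm z S) (la z S)).card := by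
    rw [← keyw_bij hMz hH hk (fun S => NdJ M a b (sm z S) (la z S))]
    congr 1
    refine Finset.filter_congr fun p hp => ?_
    rw [Fintype.mem_piFinset] at hp
    rw [sm_fill hH hk.le hp, la_fill hH hk.le hp]
  rw [e1, e2] at hbox
  refine hbox.trans (add_le_add ?_ ?_)
  · have h4 : (((RRW M X z H K 0).filter fun S => ky z H S = (S₀, J) ∧
        NdJ M a b (sm z S) (la z S)).card : ℝ) ≤
        (((RRW M X z H K 0).filter fun S => ky z H S = (S₀, J)).card : ℝ) := by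
      have : (RRW M X z H K 0).filter (fun S => ky z H S = (S₀, J) ∧ NdJ M a b (sm z S) (la z S)) ⊆
          (RRW M X z H K 0).filter fun S => ky z H S = (S₀, J) := by
        intro S hS
        rw [Finset.mem_filter] at hS ⊢
        exact ⟨hS.1, hS.2.1⟩
      exact_mod_cast Finset.card_le_card this
    gcongr
  · have hcJ : Fintype.card J = J.card := Fintype.card_coe J
    have hcard := hk.card
    have hJK : J.card ≤ K := by omega
    have hSK : S₀.card ≤ K := by omega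
    have hpr : (prs J1).card ≤ K * K := by
      refine (prs_card J1).trans ?_
      rw [hcJ]
      exact Nat.mul_le_mul hJK hJK
    have hexp : 2 * S₀.card * Fintype.card J + (prs J1).card ≤ 3 * K ^ 2 := by
      rw [hcJ]
      have h5 : S₀.card * J.card ≤ K * K := Nat.mul_le_mul hSK hJK
      calc 2 * S₀.card * J.card + (prs J1).card ≤ 2 * (K * K) + K * K := by
            rw [mul_assoc]
            omega
        _ = 3 * K ^ 2 := by ring
    have h5 : (3 : ℝ) ^ (2 * S₀.card * Fintype.card J + (prs J1).card) ≤ 3 ^ (3 * K ^ 2) :=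
      pow_le_pow_right₀ (by norm_num) hexp
    have hN0 : (0 : ℝ) < ((∏ p ∈ S₀, p : ℕ) : ℝ) := by
      exact_mod_cast Finset.prod_pos fun p hp => (hk.pr p hp).1.pos
    have hprod : ∏ j : J, (XX H j.1.1 : ℝ) ≤ X / ((∏ p ∈ S₀, p : ℕ) : ℝ) := by
      have h5 : ∏ j : J, (XX H j.1.1 : ℝ) = ((∏ k ∈ J, XX H k.1 : ℕ) : ℝ) := by
        rw [← Finset.prod_coe_sort J (fun k => XX H k.1)]
        push_cast
        rfl
      rw [h5, le_div_iff₀ hN0, mul_comm]
      exact_mod_cast hk.prod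
    calc (3 : ℝ) ^ (2 * S₀.card * Fintype.card J + (prs J1).card) *
        (κ * ∏ j : J, (XX H j.1.1 : ℝ)) ≤
        3 ^ (3 * K ^ 2) * (κ * (X / ((∏ p ∈ S₀, p : ℕ) : ℝ))) := by gcongr
      _ = _ := by ring

theorem keyj (hL : LamP) (hB1 : S_BIL1) (hB2 : S_BIL2) {M : Finset ℕ} {Te : Finset (M → ZMod 3)} {ε : ℝ} (hε : 0 ≤ ε)
    {a b : ℕ} (hBP : BoxP M Te ε a b) : ∃ C : ℝ, 1 ≤ C ∧
  ∀ (X z H K N : ℕ) (κ : ℝ), (∀ q ∈ M, q ≤ z) → 1 ≤ H → 1 ≤ z → 0 ≤ κ →
  C ≤ κ ^ 12 * z → (H : ℝ) * Real.log X < N →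
  |(((RRW M X z H K 0).filter fun S => NdJ M a b (sm z S) (la z S) ∧ GJ M Te S).card : ℝ) -
      cJ Te * (((RRW M X z H K 0).filter fun S => NdJ M a b (sm z S) (la z S)).card : ℝ)| ≤
    ε * ((RRW M X z H K 0).card : ℝ) +
    (9 * N + 9 : ℝ) ^ K * (3 ^ (3 * K ^ 2) * κ) * (X * (1 + Real.log X)) := by
  obtain ⟨C₁, hC₁, h1⟩ := hB1 hL
  obtain ⟨C₂, hC₂, h2⟩ := hB2 hL
  refine ⟨max C₁ C₂, hC₁.trans (le_max_left _ _), ?_⟩
  intro X z H K N κ hMz hH hz hκ hκz hN
  set T := (RRW M X z H K 0).image (ky z H) with hT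
  set B : ℝ := 3 ^ (3 * K ^ 2) * κ with hB
  have hB0 : 0 ≤ B := by positivity
  have hfib : ∀ (P : Finset ℕ → Prop) [DecidablePred P], (((RRW M X z H K 0).filter fun S => P S).card : ℝ) =
      ∑ k ∈ T, (((RRW M X z H K 0).filter fun S => ky z H S = k ∧ P S).card : ℝ) := by
    intro P _
    rw [Finset.card_eq_sum_card_fiberwise (f := ky z H) (t := T) (by
      intro S hS
      rw [Finset.mem_coe, Finset.mem_filter] at hS
      exact Finset.mem_coe.2 (Finset.mem_image_of_mem _ hS.1))]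
    push_cast
    refine Finset.sum_congr rfl fun k _ => ?_
    congr 2
    ext S
    simp only [Finset.mem_filter]
    tauto
  have hKP : ∀ k ∈ T, KPW M X z H K 0 k.1 k.2 := by
    intro k hk
    rw [hT, Finset.mem_image] at hk
    obtain ⟨S, hS, rfl⟩ := hk
    obtain ⟨f1, f2, f3⟩ := rrw_facts hS
    exact (rrw_iff hMz hH f1 (inj_ph f2)).1 hS
  have hf1 := hfib fun S => NdJ M a b (sm z S) (la z S) ∧ GJ M Te S
  have hf2 := hfib fun S => NdJ M a b (sm z S) (la z S)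
  have hf3 := hfib fun _ => True
  simp only [and_true, Finset.filter_true] at hf3
  rw [hf1, hf2, hf3, Finset.mul_sum, ← Finset.sum_sub_distrib]
  refine (Finset.abs_sum_le_sum_abs _ _).trans ?_
  have h3 : ∀ k ∈ T, |(((RRW M X z H K 0).filter fun S => ky z H S = k ∧
        (NdJ M a b (sm z S) (la z S) ∧ GJ M Te S)).card : ℝ) -
      cJ Te * (((RRW M X z H K 0).filter fun S => ky z H S = k ∧
        NdJ M a b (sm z S) (la z S)).card : ℝ)| ≤
      ε * (((RRW M X z H K 0).filter fun S => ky z H S = k).card : ℝ) +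
      B * (X / ((∏ p ∈ k.1, p : ℕ) : ℝ)) := by
    intro k hk
    obtain ⟨S₀, J⟩ := k
    have hk' := hKP _ hk
    exact perj_key hε hBP hMz hH hκ hk' (hb_box h1 h2 hH hz hκ ((le_max_left _ _).trans hκz)
      ((le_max_right _ _).trans hκz) hk'.ne)
  refine (Finset.sum_le_sum h3).trans ?_
  rw [Finset.sum_add_distrib, ← Finset.mul_sum]
  refine add_le_add le_rfl ?_
  have hsub : T ⊆ (TT X) ×ˢ ((range N ×ˢ range 9).powerset.filter fun J => J.card ≤ K) := by
    intro k hk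
    have hk' := hKP k hk
    rw [hT, Finset.mem_image] at hk
    obtain ⟨S, hS, rfl⟩ := hk
    obtain ⟨f1, f2, f3⟩ := rrw_facts hS
    rw [Finset.mem_product, Finset.mem_filter, Finset.mem_powerset]
    refine ⟨mem_TT (fun q hq => (hk'.pr q hq).1) ?_, ?_, ?_⟩
    · refine le_trans ?_ f3
      exact Nat.le_of_dvd (Finset.prod_pos fun p hp => (f1 p hp).pos)
        (Finset.prod_dvd_prod_of_subset _ _ _ (Finset.filter_subset _ _))
    · intro e he
      unfold ky at he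
      rw [Finset.mem_image] at he
      obtain ⟨q, hq, rfl⟩ := he
      have hqS := (Finset.mem_filter.1 hq).1
      have hq0 := (f1 q hqS).pos
      have hqX : q ≤ X := by
        refine le_trans ?_ f3
        exact Nat.le_of_dvd (Finset.prod_pos fun p hp => (f1 p hp).pos)
          (Finset.dvd_prod_of_mem _ hqS)
      unfold ph
      rw [Finset.mem_product, Finset.mem_range, Finset.mem_range]
      refine ⟨?_, Nat.mod_lt _ (by norm_num)⟩
      have h3 : ((jj H q : ℕ) : ℝ) < N := by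
        refine lt_of_le_of_lt (Nat.floor_le (mul_nonneg (Nat.cast_nonneg _)
          (Real.log_nonneg (by exact_mod_cast hq0)))) ?_
        refine lt_of_le_of_lt ?_ hN
        refine mul_le_mul_of_nonneg_left ?_ (Nat.cast_nonneg _)
        exact Real.log_le_log (by exact_mod_cast hq0) (by exact_mod_cast hqX)
      exact_mod_cast h3
    · have := hk'.card
      omega
  refine (Finset.sum_le_sum_of_subset_of_nonneg hsub fun _ _ _ => by positivity).trans ?_
  rw [Finset.sum_product]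
  simp only [Finset.sum_const, nsmul_eq_mul]
  rw [← Finset.mul_sum]
  have h4 : ((((range N ×ˢ range 9).powerset.filter fun J => J.card ≤ K).card : ℕ) : ℝ) ≤
      (9 * N + 9 : ℝ) ^ K := by
    have h5 := card_sub (range N ×ˢ range 9) K
    rw [Finset.card_product, Finset.card_range, Finset.card_range] at h5
    calc ((((range N ×ˢ range 9).powerset.filter fun J => J.card ≤ K).card : ℕ) : ℝ) ≤
          (((N * 9 + 1) ^ K : ℕ) : ℝ) := by exact_mod_cast h5
      _ = (N * 9 + 1 : ℝ) ^ K := by push_cast; ring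
      _ ≤ _ := by
        apply pow_le_pow_left₀ (by positivity)
        linarith
  have h5 : ∑ S ∈ TT X, B * (X / ((∏ p ∈ S, p : ℕ) : ℝ)) ≤ B * (X * (1 + Real.log X)) := by
    have h6 : ∀ S ∈ TT X, B * ((X : ℝ) / ((∏ p ∈ S, p : ℕ) : ℝ)) =
        B * X * (1 / ((∏ p ∈ S, p : ℕ) : ℝ)) := by
      intro S _
      ring
    rw [Finset.sum_congr rfl h6, ← Finset.mul_sum]
    have h7 := mul_le_mul_of_nonneg_left (harm_TT X) (mul_nonneg hB0 (Nat.cast_nonneg X))
    refine h7.trans (le_of_eq ?_)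
    ring
  have h6 : 0 ≤ ∑ S ∈ TT X, B * ((X : ℝ) / ((∏ p ∈ S, p : ℕ) : ℝ)) :=
    Finset.sum_nonneg fun _ _ => by positivity
  rw [mul_assoc]
  gcongr


/-! ### outside of the regular part -/

/-- the extension of a function on `M` -/
noncomputable def wex (M : Finset ℕ) (e : M → ZMod 3) (q : ℕ) : ZMod 3 :=
  if h : q ∈ M then e ⟨q, h⟩ else 0

/-- the sets with few primes with a nontrivial symbol -/
noncomputable def TBs (M : Finset ℕ) (a b X z : ℕ) (e : M → ZMod 3) : Finset (Finset ℕ) :=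
  (SG X).filter fun S => ((la z S).filter fun p =>
        p % 3 = 1 ∧ ∑ q ∈ M, wex M e q * lam p q ≠ 0).card ≤ a * (sm z S).card + b

theorem not_ndJ {M : Finset ℕ} (hM : M.Nonempty) {a b X z : ℕ} {S : Finset ℕ} (hS : S ∈ SG X)
    (h1 : Nd (sm z S) (la z S)) (h2 : ∀ e : M → ZMod 3, e ≠ 0 → S ∉ TBs M a b X z e) :
    NdJ M a b (sm z S) (la z S) := by
  have h3 : ∀ w : ℕ → ZMod 3, (∃ q ∈ M, w q ≠ 0) → a * (sm z S).card + b ≤
    ((la z S).filter fun p => p % 3 = 1 ∧ ∑ q ∈ M, w q * lam p q ≠ 0).card := by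
    intro w hw
    obtain ⟨q, hq, hwq⟩ := hw
    have h4 := h2 (fun x => w x) (by
      intro h
      exact hwq (congrFun h ⟨q, hq⟩))
    unfold TBs at h4
    rw [mem_filter] at h4
    push Not at h4
    have h5 := h4 hS
    have h6 : ∀ p, ∑ q ∈ M, wex M (fun x => w x) q * lam p q = ∑ q ∈ M, w q * lam p q := by
      intro p
      refine sum_congr rfl fun q hq => ?_
      unfold wex
      rw [dif_pos hq]
    simp only [h6] at h5
    exact h5.le
  refine ⟨h1, h3, ?_⟩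
  obtain ⟨q, hq⟩ := hM
  refine (h3 (fun _ => 1) ⟨q, hq, one_ne_zero⟩).trans ?_
  refine card_le_card fun p hp => ?_
  rw [mem_filter] at hp ⊢
  exact ⟨hp.1, hp.2.1⟩

theorem out_subJ {M : Finset ℕ} (hM : M.Nonempty) (a b X z H K : ℕ) :
    SW M X \ ((RRW M X z H K 0).filter fun S => NdJ M a b (sm z S) (la z S)) ⊆
      (SW M X \ ((RRW M X z H K 0).filter fun S => Nd (sm z S) (la z S))) ∪
        (univ.filter fun e : M → ZMod 3 => e ≠ 0).biUnion (TBs M a b X z) := by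
  intro S hS
  rw [Finset.mem_sdiff, Finset.mem_filter] at hS
  obtain ⟨h1, h2⟩ := hS
  rw [Finset.mem_union, Finset.mem_sdiff, Finset.mem_filter, Finset.mem_biUnion]
  by_contra hc
  push Not at hc
  obtain ⟨hc1, hc2⟩ := hc
  obtain ⟨c1, c2⟩ := hc1 h1
  refine h2 ⟨c1, not_ndJ hM (SW_sub M X h1) c2 fun e he => hc2 e ?_⟩
  rw [mem_filter]
  exact ⟨mem_univ _, he⟩

/-- the error of the sets outside -/
noncomputable def EO (X : ℕ) : ℝ :=
  (((((((SG X).filter fun S => kk X < S.card).card : ℝ) + ((X : ℝ) * kk X / HH X + 1)) +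
        (((SG X).filter fun S => ¬ Set.InjOn (jj (HH X)) (la (zz X) S : Set ℕ)).card : ℝ)) +
        (((SG X).filter fun S => ((la (zz X) S).filter fun p => p % 3 = 1).card ≤
          (sm (zz X) S).card + 0).card : ℝ)) +
        (((SG X).filter fun S => S.card ≤ kk X ∧ ¬ Nd (sm (zz X) S) (la (zz X) S)).card : ℝ))

/-- the total error -/
noncomputable def ERJ (M : Finset ℕ) (a b : ℕ) (C : ℝ) (X : ℕ) : ℝ :=
  (EO X + ∑ e ∈ univ.filter (fun e : M → ZMod 3 => e ≠ 0), ((TBs M a b X (zz X) e).card : ℝ)) +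
    (9 * (NN X : ℝ) + 9) ^ kk X * (3 ^ (3 * kk X ^ 2) * kap C X) * (X * (1 + Real.log X))

theorem sma_zero : SmA fun _ => (0 : ℝ) := by
  refine ⟨0, le_rfl, Eventually.of_forall fun X => ?_⟩
  simp

theorem sma_sum {ι : Type} (s : Finset ι) (E : ι → ℕ → ℝ) (h : ∀ i ∈ s, SmA (E i)) :
    SmA fun X => ∑ i ∈ s, E i X := by
  induction s using Finset.induction_on with
  | empty => simpa using sma_zero
  | insert i s hi ih =>
    have h1 := sma_add (h i (mem_insert_self _ _)) (ih fun j hj => h j (mem_insert_of_mem hj))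
    refine h1.imp fun C hC => ⟨hC.1, ?_⟩
    filter_upwards [hC.2] with X hX
    rw [sum_insert hi]
    exact hX

theorem erj_sma (hL : LamP) (hS : S_SIE) (hH : S_HAL) (hTB : S_TB) {M : Finset ℕ}
    (hM3 : ∀ q ∈ M, q.Prime ∧ q % 3 = 1) (a b : ℕ) {C : ℝ} (hC : 1 ≤ C) :
    SmA (ERJ M a b C) := by
  obtain ⟨CB, XB, hbad⟩ := Bad.bad hL hS hH
  obtain ⟨CF, XF, hfew⟩ := Few.few hS 0
  refine sma_add (sma_add (sma_add (sma_add (sma_add (sma_add sma_many sma_cut) sma_coll)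
    (sma_rpow hfew)) (sma_rpow hbad)) ?_) (sma_main hC)
  refine sma_sum _ _ fun e he => ?_
  have he0 : e ≠ 0 := (mem_filter.1 he).2
  obtain ⟨q, hq⟩ := Function.ne_iff.1 he0
  obtain ⟨CT, XT, hT⟩ := hTB hL hS hH M (wex M e) a b hM3 ⟨q, q.2, by
    unfold wex
    rw [dif_pos q.2]
    exact hq⟩
  exact sma_rpow hT

/-- the error for `M` -/
theorem perMJ {M : Finset ℕ} {Te : Finset (M → ZMod 3)} (hM : M.Nonempty) {ε : ℝ} (hε : 0 ≤ ε) (hc0 : 0 ≤ cJ Te)
    (hc1 : cJ Te ≤ 1) (a b X : ℕ) (hH : 1 ≤ HH X) {E : ℝ}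
    (hE : |(((RRW M X (zz X) (HH X) (kk X) 0).filter fun S =>
        NdJ M a b (sm (zz X) S) (la (zz X) S) ∧ GJ M Te S).card : ℝ) -
      cJ Te * (((RRW M X (zz X) (HH X) (kk X) 0).filter fun S =>
        NdJ M a b (sm (zz X) S) (la (zz X) S)).card : ℝ)| ≤
      ε * ((RRW M X (zz X) (HH X) (kk X) 0).card : ℝ) + E) :
    |(((SW M X).filter (GJ M Te)).card : ℝ) - cJ Te * ((SW M X).card : ℝ)| ≤
      ε * ((SW M X).card : ℝ) + ((EO X + ∑ e ∈ univ.filter (fun e : M → ZMod 3 => e ≠ 0),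
        ((TBs M a b X (zz X) e).card : ℝ)) + E) := by
  set T := (RRW M X (zz X) (HH X) (kk X) 0).filter fun S =>
    NdJ M a b (sm (zz X) S) (la (zz X) S) with hT
  have hTG : (RRW M X (zz X) (HH X) (kk X) 0).filter (fun S =>
      NdJ M a b (sm (zz X) S) (la (zz X) S) ∧ GJ M Te S) = T.filter (GJ M Te) := by
    rw [hT, filter_filter]
  rw [hTG] at hE
  have hTS : T ⊆ SW M X := (filter_subset _ _).trans (filter_subset _ _)
  have hRS : ((RRW M X (zz X) (HH X) (kk X) 0).card : ℝ) ≤ ((SW M X).card : ℝ) := by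
    exact_mod_cast card_le_card (filter_subset _ _)
  have hcmp := cmp (GJ M Te) T (SW M X) hTS (cJ Te) hc0 hc1
  have hcut : (((SG X).filter fun S => S.card ≤ kk X ∧
        X < (∏ p ∈ sm (zz X) S, p) * ∏ p ∈ la (zz X) S, XX (HH X) (jj (HH X) p)).card : ℝ) ≤
      (X : ℝ) * kk X / HH X + 1 :=
    Cnt.cut_count (X := X) (z := zz X) (H := HH X) (K := kk X) hH
  have hout1 : ((SW M X \ ((RRW M X (zz X) (HH X) (kk X) 0).filter fun S =>
      Nd (sm (zz X) S) (la (zz X) S))).card : ℝ) ≤ EO X := by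
    have g := card_le_card (out_sub (le_refl X) M (zz X) (HH X) (kk X) 0)
    have g2 := (g.trans (card_union_le _ _)).trans (Nat.add_le_add_right ((card_union_le _ _).trans
      (Nat.add_le_add_right ((card_union_le _ _).trans
      (Nat.add_le_add_right (card_union_le _ _) _)) _)) _)
    have g3 : ((SW M X \ ((RRW M X (zz X) (HH X) (kk X) 0).filter fun S =>
        Nd (sm (zz X) S) (la (zz X) S))).card : ℝ) ≤
      ((((SG X).filter fun S => kk X < S.card).card : ℝ) +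
      (((SG X).filter fun S => S.card ≤ kk X ∧
        X < (∏ p ∈ sm (zz X) S, p) * ∏ p ∈ la (zz X) S, XX (HH X) (jj (HH X) p)).card : ℝ) +
      (((SG X).filter fun S => ¬ Set.InjOn (jj (HH X)) (la (zz X) S : Set ℕ)).card : ℝ) +
      (((SG X).filter fun S => ((la (zz X) S).filter fun p => p % 3 = 1).card ≤
        (sm (zz X) S).card + 0).card : ℝ)) +
      (((SG X).filter fun S => S.card ≤ kk X ∧
        ¬ Nd (sm (zz X) S) (la (zz X) S)).card : ℝ) := by
      exact_mod_cast g2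
    unfold EO
    linarith
  have hout2 : ((SW M X \ T).card : ℝ) ≤ EO X +
      ∑ e ∈ univ.filter (fun e : M → ZMod 3 => e ≠ 0), ((TBs M a b X (zz X) e).card : ℝ) := by
    have g := card_le_card (out_subJ hM a b X (zz X) (HH X) (kk X))
    rw [← hT] at g
    have g2 := g.trans (card_union_le _ _)
    have g3 : (((univ.filter fun e : M → ZMod 3 => e ≠ 0).biUnion (TBs M a b X (zz X))).card : ℝ) ≤
        ∑ e ∈ univ.filter (fun e : M → ZMod 3 => e ≠ 0), ((TBs M a b X (zz X) e).card : ℝ) := by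
      exact_mod_cast card_biUnion_le
    have g4 : ((SW M X \ T).card : ℝ) ≤ ((SW M X \ ((RRW M X (zz X) (HH X) (kk X) 0).filter
        fun S => Nd (sm (zz X) S) (la (zz X) S))).card : ℝ) +
        (((univ.filter fun e : M → ZMod 3 => e ≠ 0).biUnion (TBs M a b X (zz X))).card : ℝ) := by
      exact_mod_cast g2
    linarith
  have g1 : ε * ((RRW M X (zz X) (HH X) (kk X) 0).card : ℝ) ≤ ε * ((SW M X).card : ℝ) :=
    mul_le_mul_of_nonneg_left hRS hε
  linarith

/-! ### the lower bound -/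

theorem prod_mod9 {M : Finset ℕ} (h : ∀ q ∈ M, q % 9 = 1) : (∏ q ∈ M, q) % 9 = 1 := by
  rw [Finset.prod_nat_mod, Finset.prod_congr rfl h]
  simp

theorem ss_le_sw {M : Finset ℕ} (hM : ∀ q ∈ M, q.Prime ∧ q % 9 = 1) (X : ℕ) :
    (SS (X / ∏ p ∈ M, p)).card ≤ 2 ^ M.card * (SW M X).card := by
  have hP : 0 < ∏ p ∈ M, p := prod_primes_pos fun q hq => (hM q hq).1
  rw [← card_powerset, mul_comm, ← card_product]
  refine card_le_card_of_injOn (fun T => (T ∪ M, T ∩ M)) ?_ ?_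
  · intro T hT
    unfold SS at hT
    rw [mem_coe, mem_filter] at hT
    obtain ⟨-, ⟨h2, h3, h4, h5⟩, h6⟩ := hT
    have hU : T ∪ M = (T \ M) ∪ M := by rw [sdiff_union_self_eq_union]
    have hprod : ∏ p ∈ T ∪ M, p = (∏ p ∈ T \ M, p) * ∏ p ∈ M, p := by
      rw [hU, prod_union sdiff_disjoint]
    have hTT : ∏ p ∈ T, p = (∏ p ∈ T \ M, p) * ∏ p ∈ T ∩ M, p := by
      rw [← prod_union (disjoint_sdiff_inter T M), sdiff_union_inter]
    have hint : (∏ p ∈ T ∩ M, p) % 9 = 1 :=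
      prod_mod9 fun q hq => (hM q (mem_inter.1 hq).2).2
    have hM9 : (∏ p ∈ M, p) % 9 = 1 := prod_mod9 fun q hq => (hM q hq).2
    have hmod : ((∏ p ∈ T ∪ M, p) * ∏ p ∈ M, p) % 9 = (∏ p ∈ T, p) % 9 := by
      rw [hprod, hTT, Nat.mul_mod, Nat.mul_mod (∏ p ∈ T \ M, p), hM9,
        Nat.mul_mod (∏ p ∈ T \ M, p) (∏ p ∈ T ∩ M, p), hint]
      simp
    rw [mem_coe, mem_product, mem_powerset, mem_SW]
    refine ⟨⟨⟨⟨?_, ?_⟩, subset_union_right, ?_, ?_⟩, ?_⟩, inter_subset_right⟩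
    · intro p hp
      rcases mem_union.1 hp with h | h
      · exact h2 p h
      · refine ⟨(hM p h).1, ?_⟩
        rintro rfl
        have := (hM 3 h).2
        omega
    · rw [filter_union]
      have : M.filter (fun p => p % 3 = 2) = ∅ := by
        rw [filter_eq_empty_iff]
        intro p hp h
        have := (hM p hp).2
        omega
      rw [this, union_empty]
      exact h3
    · show ((∏ p ∈ T ∪ M, p) * ∏ p ∈ M, p) % 9 ≠ 1
      rw [hmod]; exact h4
    · show ((∏ p ∈ T ∪ M, p) * ∏ p ∈ M, p) % 9 ≠ 8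
      rw [hmod]; exact h5
    · show ∏ p ∈ T ∪ M, p ≤ X
      rw [hprod]
      have h7 : ∏ p ∈ T \ M, p ≤ ∏ p ∈ T, p :=
        Nat.le_of_dvd (prod_primes_pos fun q hq => (h2 q hq).1)
          (prod_dvd_prod_of_subset _ _ _ sdiff_subset)
      exact (Nat.mul_le_mul_right _ (h7.trans h6)).trans (Nat.div_mul_le_self _ _)
  · intro S _ T _ h
    have h1 : S ∪ M = T ∪ M := congrArg Prod.fst h
    have h2 : S ∩ M = T ∩ M := congrArg Prod.snd h
    ext x
    by_cases hx : x ∈ M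
    · have h3 : x ∈ S ∩ M ↔ x ∈ T ∩ M := by rw [h2]
      simpa [hx] using h3
    · have h3 : x ∈ S ∪ M ↔ x ∈ T ∪ M := by rw [h1]
      simpa [hx] using h3

theorem low {M : Finset ℕ} (hM : ∀ q ∈ M, q.Prime ∧ q % 9 = 1) {c : ℝ} {X₀ : ℕ} (hc : 0 < c)
    (hlow : ∀ X : ℕ, X₀ ≤ X → c * X * (Real.log X) ^ (-(1 / 2) : ℝ) ≤ ((SS X).card : ℝ)) :
    ∃ c' : ℝ, 0 < c' ∧ ∀ᶠ X : ℕ in atTop,
      c' * (X * Real.exp (-(eL X) / 2)) ≤ ((SW M X).card : ℝ) := by
  have hP : 0 < ∏ p ∈ M, p := prod_primes_pos fun q hq => (hM q hq).1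
  obtain ⟨P, hPd⟩ : ∃ P : ℕ, P = ∏ p ∈ M, p := ⟨_, rfl⟩
  rw [← hPd] at hP
  have hP' : (0 : ℝ) < P := by exact_mod_cast hP
  refine ⟨c / (2 * P * 2 ^ M.card), by positivity, ?_⟩
  filter_upwards [ev_eL 1, eventually_ge_atTop (P * (X₀ + 2))] with X hX hX2
  have hX0 : 0 < eL X := by linarith
  have hYX : X / P ≤ X := Nat.div_le_self _ _
  have hY : X₀ + 2 ≤ X / P := by
    rw [Nat.le_div_iff_mul_le hP, mul_comm]
    exact hX2
  have h1 := hlow (X / P) (by omega)
  have h2 : ((SS (X / P)).card : ℝ) ≤ 2 ^ M.card * ((SW M X).card : ℝ) := by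
    rw [hPd]
    exact_mod_cast ss_le_sw hM X
  have hY2 : (2 : ℝ) ≤ ((X / P : ℕ) : ℝ) := by exact_mod_cast (by omega : 2 ≤ X / P)
  have h3 : (X : ℝ) / (2 * P) ≤ ((X / P : ℕ) : ℝ) := by
    rw [div_le_iff₀ (by positivity)]
    have h4 : X < P * (X / P + 1) := Nat.lt_mul_div_succ X hP
    have h5 : (X : ℝ) ≤ P * ((X / P : ℕ) + 1) := by exact_mod_cast h4.le
    nlinarith
  have hlog : 0 < Real.log ((X / P : ℕ) : ℝ) := Real.log_pos (by linarith)
  have h6 : (Real.log X) ^ (-(1 / 2) : ℝ) ≤ (Real.log ((X / P : ℕ) : ℝ)) ^ (-(1 / 2) : ℝ) := by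
    apply Real.rpow_le_rpow_of_nonpos hlog
    · exact Real.log_le_log (by linarith) (by exact_mod_cast hYX)
    · norm_num
  rw [rpow_eL hX0] at h6
  have e0 : (-(1 / 2) * eL X : ℝ) = -(eL X) / 2 := by ring
  rw [e0] at h6
  have h7 : c * (X / (2 * P)) * Real.exp (-(eL X) / 2) ≤ 2 ^ M.card * ((SW M X).card : ℝ) := by
    refine le_trans ?_ (h1.trans h2)
    have : 0 ≤ Real.exp (-(eL X) / 2) := (Real.exp_pos _).le
    gcongr
  have h8 : c / (2 * P * 2 ^ M.card) * (X * Real.exp (-(eL X) / 2)) =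
      (c * (X / (2 * P)) * Real.exp (-(eL X) / 2)) / 2 ^ M.card := by
    field_simp
  rw [h8, div_le_iff₀ (by positivity), mul_comm ((SW M X).card : ℝ)]
  exact h7

/-! ### the limit -/

theorem zz_tendsto (B : ℕ) : ∀ᶠ X : ℕ in atTop, B ≤ zz X := by
  filter_upwards [ev_eL 1, ev_eL (2 * B)] with X h1 h2
  have h3 := zz_ge h1
  have h4 := Real.add_one_le_exp ((eL X) ^ 3)
  have h5 : eL X ≤ eL X ^ 3 := by
    have : eL X ^ 3 = eL X * eL X ^ 2 := by ring
    rw [this]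
    nlinarith
  have h6 : (B : ℝ) ≤ zz X := by linarith
  exact_mod_cast h6

end Pool.Agent.R432.JL.Fin

namespace Pool.Agent.R432.JL

open Finset Filter
open Pool.Agent.Y703.CX
open Pool.Agent.R419.CF
open Pool.Agent.R419.CF.Asy
open Pool.Agent.R432.JL.Fin

/-- JL-FIN -/
theorem jl : S_JL := by
  intro hL h1 h2 h3 h4 hbox hTB hS hH hMer hCh hLo hc3 M Te hM hM9
  have hM3 : ∀ q ∈ M, q.Prime ∧ q % 3 = 1 := by
    intro q hq
    have := (hM9 q hq).2
    exact ⟨(hM9 q hq).1, by omega⟩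
  have hc0 : 0 ≤ cJ Te := pow_nonneg hc3.2.1.le _
  have hc1 : cJ Te ≤ 1 := pow_le_one₀ hc3.2.1.le hc3.2.2.1.le
  obtain ⟨c₀, X₀, hc₀, hlow⟩ := hLo hMer hCh
  obtain ⟨c, hc, hlow'⟩ := low hM9 hc₀ hlow
  rw [Metric.tendsto_nhds]
  intro ε hε
  obtain ⟨a, b, hB⟩ := hbox h3 h4 M Te (ε / 4) hM3 (by linarith)
  have hBP : BoxP M Te (ε / 4) a b := hB
  obtain ⟨C, hC1, hkey⟩ := keyj hL h1 h2 (by linarith) hBP
  obtain ⟨CE, hCE, hEE⟩ := erj_sma hL hS hH hTB hM3 a b hC1
  have hE2 : Sml fun X => CE * (X * Real.exp (-(3 / 5) * eL X)) := by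
    refine sml_of (C := CE) (a := 3 / 5) (by norm_num) ?_
    exact Eventually.of_forall fun X => le_rfl
  have hδ : (0 : ℝ) < c * ε / 4 := by positivity
  filter_upwards [hE2 (c * ε / 4) hδ, hEE, ev_eL 1, hlow', zz_tendsto (∏ p ∈ M, p)] with
    X hX hEX hl hlo hzz
  have hl0 : 0 < eL X := by linarith
  have hXp := X_pos hl0
  have hXp' : (0 : ℝ) < X := by exact_mod_cast hXp
  have hpos : (0 : ℝ) < c * (X * Real.exp (-(eL X) / 2)) := by positivity
  have hMz : ∀ q ∈ M, q ≤ zz X := by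
    intro q hq
    have := Nat.le_of_dvd (prod_primes_pos fun q hq => (hM9 q hq).1)
      (Finset.dvd_prod_of_mem (fun p => p) hq)
    exact this.trans hzz
  have hN : (HH X : ℝ) * Real.log X < NN X := by
    unfold NN
    push_cast
    exact Nat.lt_floor_add_one _
  have hmain := hkey X (zz X) (HH X) (kk X) (NN X) (kap C X) hMz (HH_pos hl0) (zz_pos hl)
    (kap_nonneg hC1 X) (kap_pow hC1 hl) hN
  have hp := perMJ hM (by linarith) hc0 hc1 a b X (HH_pos hl0) hmain
  have hfin : |(((SW M X).filter (GJ M Te)).card : ℝ) - cJ Te * ((SW M X).card : ℝ)| ≤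
      ε / 4 * ((SW M X).card : ℝ) + CE * (X * Real.exp (-(3 / 5) * eL X)) :=
    hp.trans (add_le_add le_rfl hEX)
  rw [Real.dist_eq]
  refine last (c := c) (Q := X * Real.exp (-(eL X) / 2)) (v := ε / 8) hε (by linarith) hlo
    (hpos.trans_le hlo) ?_ hX
  refine hfin.trans (le_of_eq ?_)
  ring

end Pool.Agent.R432.JL
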