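import Pool.Agent.R432.JL.SAbs

/-!
# Project JL: linear algebra for matrices of symbols (S_LAJ)
-/

set_option autoImplicit false
set_option linter.unusedVariables false
set_option linter.unusedSectionVars false

open scoped Classical

namespace Pool.Agent.R432.JL

namespace Laj

open Finset Function Module
open Pool.Agent.Y703.CX
open Pool.Agent.Y759.CX

variable {U J : Type} [Fintype U] [Fintype J]

/-- few rows which determine the columns -/
lemma ex_rows (J1 : Finset J) (C : J → U → F)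
    (h : ∀ w : U → F, (∃ u, w u ≠ 0) → ∃ k ∈ J1, ∑ u, w u * C k u ≠ 0) :
    ∃ T : Finset J, T ⊆ J1 ∧ T.card ≤ Fintype.card U ∧
      ∀ w : U → F, (∃ u, w u ≠ 0) → ∃ k ∈ T, ∑ u, w u * C k u ≠ 0 := by
  let P : Finset J → Prop :=
    fun T => ∀ w : U → F, (∃ u, w u ≠ 0) → ∃ k ∈ T, ∑ u, w u * C k u ≠ 0
  obtain ⟨T, hT, hmin⟩ := Finset.exists_min_image (J1.powerset.filter P) Finset.card
    ⟨J1, mem_filter.2 ⟨mem_powerset.2 (subset_refl _), h⟩⟩
  rw [mem_filter, mem_powerset] at hT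
  refine ⟨T, hT.1, ?_, hT.2⟩
  have h1 : ∀ k : T, ∃ w : U → F, (∑ u, w u * C k u ≠ 0) ∧
      ∀ l ∈ T, l ≠ k → ∑ u, w u * C l u = 0 := by
    intro k
    by_contra hcon
    have hP : P (T.erase k) := by
      intro w hw
      by_contra hc
      push Not at hc
      obtain ⟨k', hk', hk''⟩ := hT.2 w hw
      have e : k' = k := by
        by_contra hne
        exact hk'' (hc k' (mem_erase.2 ⟨hne, hk'⟩))
      exact hcon ⟨w, e ▸ hk'', fun l hl hlk => hc l (mem_erase.2 ⟨hlk, hl⟩)⟩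
    have h2 := hmin (T.erase k)
      (mem_filter.2 ⟨mem_powerset.2 ((erase_subset _ _).trans hT.1), hP⟩)
    have h3 := card_erase_lt_of_mem k.2
    omega
  choose w hw1 hw2 using h1
  have hli : LinearIndependent F w := by
    rw [Fintype.linearIndependent_iff]
    intro g hg l
    have h4 : ∑ u, (∑ k, g k • w k) u * C l u = 0 := by
      rw [hg]
      simp
    have h5 : ∑ u, (∑ k, g k • w k) u * C l u = ∑ k, g k * ∑ u, w k u * C l u := by
      simp only [Finset.sum_apply, Pi.smul_apply, smul_eq_mul, Finset.sum_mul, Finset.mul_sum]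
      rw [Finset.sum_comm]
      exact sum_congr rfl fun k _ => sum_congr rfl fun u _ => by ring
    rw [h5, Finset.sum_eq_single l] at h4
    · exact (mul_eq_zero.1 h4).resolve_right (hw1 l)
    · intro k _ hk
      rw [hw2 k l l.2 (fun h => hk (Subtype.ext h.symm)), mul_zero]
    · intro h
      exact absurd (mem_univ _) h
  have h6 := hli.fintype_card_le_finrank
  rwa [Fintype.card_coe, finrank_fintype_fun_eq_card] at h6

/-- restriction of coordinates -/
def rs {S T : Finset J} (h : S ⊆ T) : (T → F) →ₗ[F] (S → F) where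
  toFun x k := x ⟨k, h k.2⟩
  map_add' _ _ := rfl
  map_smul' _ _ := rfl

/-- the parametrisation of the pairs of maps -/
noncomputable def Phi (ks : J) (J1 Ja Jb : Finset J) (ha : Ja ⊆ J1) (hb : Jb ⊆ J1) :
    (prs J1 → F) →ₗ[F] (({l : J // l ≠ ks} → F) →ₗ[F] (Ja → F)) ×
      (({l : J // l ≠ ks} → F) →ₗ[F] (Jb → F)) where
  toFun α := (rs ha ∘ₗ mT ks J1 α, rs hb ∘ₗ mT ks J1 α)
  map_add' α β := by
    rw [map_add, LinearMap.comp_add, LinearMap.comp_add]
    rfl
  map_smul' a α := by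
    rw [map_smul, LinearMap.comp_smul, LinearMap.comp_smul]
    rfl

lemma Phi_inj (ks : J) (J1 Ja Jb : Finset J) (ha : Ja ⊆ J1) (hb : Jb ⊆ J1)
    (hab : ∀ k ∈ J1, k ∈ Ja ∨ k ∈ Jb) : Injective (Phi ks J1 Ja Jb ha hb) := by
  refine (injective_iff_map_eq_zero _).2 fun α hα => ?_
  apply mT_inj ks J1
  rw [map_zero]
  have h1 : rs ha ∘ₗ mT ks J1 α = 0 := congrArg Prod.fst hα
  have h2 : rs hb ∘ₗ mT ks J1 α = 0 := congrArg Prod.snd hα
  refine LinearMap.ext fun d => ?_
  funext k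
  rcases hab k k.2 with hk | hk
  · exact congrFun (LinearMap.congr_fun h1 d) ⟨k, hk⟩
  · exact congrFun (LinearMap.congr_fun h2 d) ⟨k, hk⟩

lemma Phi_bij (ks : J) (J1 Ja Jb : Finset J) (ha : Ja ⊆ J1) (hb : Jb ⊆ J1)
    (hab : ∀ k ∈ J1, k ∈ Ja ∨ k ∈ Jb) (hc : Ja.card + Jb.card = J1.card) :
    Bijective (Phi ks J1 Ja Jb ha hb) := by
  refine ⟨Phi_inj ks J1 Ja Jb ha hb hab, ?_⟩
  refine (LinearMap.injective_iff_surjective_of_finrank_eq_finrank ?_).1
    (Phi_inj ks J1 Ja Jb ha hb hab)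
  rw [Module.finrank_prod, Module.finrank_linearMap, Module.finrank_linearMap,
    finrank_fintype_fun_eq_card, finrank_fintype_fun_eq_card, finrank_fintype_fun_eq_card,
    finrank_fintype_fun_eq_card, Fintype.card_coe, Fintype.card_coe, Fintype.card_coe, card_ne,
    card_prs, ← mul_add, hc]

lemma gd_iff' (ks : J) (U1 : Finset U) (J1 Ja Jb : Finset J) (ha : Ja ⊆ J1) (hb : Jb ⊆ J1)
    (hab : ∀ k ∈ J1, k ∈ Ja ∨ k ∈ Jb) (A : U → U → F) (B : U → J → F)
    (C : J → U → F) (α : prs J1 → F) : GdA U1 J1 A B C (ext α) ↔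
    Gb (mA U1 A B) (mB ks U1 B) ((mC Ja C).prod (mC Jb C))
      (((Phi ks J1 Ja Jb ha hb α).1 + mR0 ks Ja C).prod
        ((Phi ks J1 Ja Jb ha hb α).2 + mR0 ks Jb C)) := by
  rw [gd_iff ks U1 J1 A B C α]
  have key : ∀ (x : U → F) (v : {l : J // l ≠ ks} → F),
      (mC J1 C x + eR ks J1 C α v = 0) ↔
      ((mC Ja C).prod (mC Jb C)) x + (((Phi ks J1 Ja Jb ha hb α).1 + mR0 ks Ja C).prod
        ((Phi ks J1 Ja Jb ha hb α).2 + mR0 ks Jb C)) v = 0 := by
    intro x v
    constructor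
    · intro h
      refine Prod.ext ?_ ?_
      · funext k
        exact congrFun h ⟨k, ha k.2⟩
      · funext k
        exact congrFun h ⟨k, hb k.2⟩
    · intro h
      funext k
      rcases hab k k.2 with hk | hk
      · exact congrFun (congrArg Prod.fst h) ⟨k, hk⟩
      · exact congrFun (congrArg Prod.snd h) ⟨k, hk⟩
  constructor
  · intro hg x v h1 h2
    exact hg x v h1 ((key x v).2 h2)
  · intro hg x v h1 h2
    exact hg x v h1 ((key x v).1 h2)

lemma rank_ge {U' : Type} [Fintype U'] (ks : J) (Ja : Finset J) (C : J → U → F)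
    (C' : J → U' → F) : ((Ja.filter fun k => ∑ x, C k x ≠ ∑ x, C' k x).erase ks).card ≤
      finrank F (LinearMap.range (mR0 ks Ja C - mR0 ks Ja C')) := by
  set T := (Ja.filter fun k => ∑ x, C k x ≠ ∑ x, C' k x).erase ks with hT
  have hs : T ⊆ Ja := (erase_subset _ _).trans (filter_subset _ _)
  have hsur : Surjective (rs hs ∘ₗ (mR0 ks Ja C - mR0 ks Ja C')) := by
    intro y
    refine ⟨fun l => if h : l.1 ∈ T then
      y ⟨l.1, h⟩ * (-(∑ x, C l.1 x) + ∑ x, C' l.1 x)⁻¹ else 0, ?_⟩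
    funext k
    have hk := k.2
    have hk2 := mem_erase.1 hk
    have hk3 := (mem_filter.1 hk2.2).2
    show -(dt ks _ k * ∑ x, C k x) - -(dt ks _ k * ∑ x, C' k x) = y k
    rw [dt_of ks _ hk2.1]
    simp only
    rw [dif_pos hk]
    have h0 : (-(∑ x, C k x) + ∑ x, C' k x) ≠ 0 := by
      intro h
      apply hk3
      rw [neg_add_eq_zero] at h
      exact h
    have e1 : ∀ a b c : F, -(a * b) - -(a * c) = a * (-b + c) := fun a b c => by ring
    rw [e1, mul_assoc, inv_mul_cancel₀ h0, mul_one]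
  have h1 : finrank F (LinearMap.range (rs hs ∘ₗ (mR0 ks Ja C - mR0 ks Ja C'))) = T.card := by
    rw [LinearMap.range_eq_top.2 hsur, finrank_top, finrank_fintype_fun_eq_card, Fintype.card_coe]
  rw [← h1, LinearMap.range_comp]
  exact Submodule.finrank_map_le _ _

lemma fr_count (ks : J) (J1 Ja Jb : Finset J) (ha : Ja ⊆ J1) (hb : Jb ⊆ J1)
    (hab : ∀ k ∈ J1, k ∈ Ja ∨ k ∈ Jb) (hc : Ja.card + Jb.card = J1.card)
    (P : (prs J1 → F) → Prop) (Q : (({l : J // l ≠ ks} → F) →ₗ[F] (Ja → F)) ×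
      (({l : J // l ≠ ks} → F) →ₗ[F] (Jb → F)) → Prop)
    (hPQ : ∀ α, P α ↔ Q (Phi ks J1 Ja Jb ha hb α)) :
    ((univ.filter P).card : ℝ) / 3 ^ (prs J1).card = fr Q := by
  rw [← fr_equiv (Equiv.ofBijective _ (Phi_bij ks J1 Ja Jb ha hb hab hc))]
  unfold fr
  have h6 : Nat.card (prs J1 → F) = 3 ^ (prs J1).card := by
    rw [Nat.card_fun, Nat.card_eq_fintype_card, Nat.card_eq_fintype_card, ZMod.card,
      Fintype.card_coe]
  rw [h6, Nat.card_eq_fintype_card, Fintype.card_subtype]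
  push_cast
  congr 3
  refine Finset.filter_congr fun α _ => ?_
  exact hPQ α

end Laj

open Finset Function Module
open Pool.Agent.Y703.CX
open Pool.Agent.Y759.CX

theorem laj (h3 : S_C3) (h : S_ABS) : S_LAJ := by
  intro E _ ε hε
  obtain ⟨n, hn⟩ : ∃ n, n = Fintype.card E := ⟨_, rfl⟩
  obtain ⟨k, hk⟩ : ∃ k : ℕ, (8 * n + n * 2 ^ n : ℝ) * (1 / 3) ^ k ≤ ε := by
    have hM : (0 : ℝ) < 8 * n + n * 2 ^ n + 1 := by positivity
    obtain ⟨k, hk⟩ := exists_pow_lt_of_lt_one (div_pos hε hM) (by norm_num : (1 / 3 : ℝ) < 1)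
    refine ⟨k, ?_⟩
    rw [lt_div_iff₀ hM] at hk
    have : (0 : ℝ) ≤ (1 / 3) ^ k := by positivity
    nlinarith
  refine ⟨n + 1, n * k + k + 1 + k, ?_⟩
  intro J _ U _ U1 J1 ks u hcard hu hJ A B C hB hC hdiff hJ1
  choose T hT1 hT2 hT3 using fun e => Laj.ex_rows J1 (C e) (hC e)
  have h1 : (univ.biUnion T).card ≤ n * u := by
    refine card_biUnion_le.trans ?_
    refine (sum_le_sum fun e _ => (hT2 e).trans (hu e)).trans ?_
    rw [sum_const, card_univ, smul_eq_mul, hn]
  have hnu : (n + 1) * u = n * u + u := by ring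
  rw [hnu] at hJ1
  have h2 : k ≤ (J1 \ univ.biUnion T).card := by
    have h4 := le_card_sdiff (univ.biUnion T) J1
    omega
  obtain ⟨Jb, hJb, hJbc⟩ := Finset.exists_subset_card_eq h2
  have hb : Jb ⊆ J1 := hJb.trans sdiff_subset
  obtain ⟨Ja, hJa⟩ : ∃ Ja, Ja = J1 \ Jb := ⟨_, rfl⟩
  have ha : Ja ⊆ J1 := by
    rw [hJa]
    exact sdiff_subset
  have hab : ∀ k ∈ J1, k ∈ Ja ∨ k ∈ Jb := by
    intro k hk
    by_cases hkb : k ∈ Jb
    · exact Or.inr hkb
    · left
      rw [hJa]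
      exact mem_sdiff.2 ⟨hk, hkb⟩
  have hc : Ja.card + Jb.card = J1.card := by
    rw [hJa]
    exact card_sdiff_add_card_eq_card hb
  have hTa : ∀ e, T e ⊆ Ja := by
    intro e x hx
    rw [hJa]
    refine mem_sdiff.2 ⟨hT1 e hx, fun hxb => ?_⟩
    exact (mem_sdiff.1 (hJb hxb)).2 (mem_biUnion.2 ⟨e, mem_univ _, hx⟩)
  have hU : 1 ≤ Fintype.card J := Fintype.card_pos_iff.2 ⟨ks⟩
  have hJJ : Fintype.card J ≤ J1.card + 1 := by
    have h4 : (univ : Finset J) ⊆ insert ks J1 := by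
      intro l _
      by_cases hl : l ∈ J1
      · exact mem_insert_of_mem hl
      · rw [hJ l hl]
        exact mem_insert_self _ _
    have h5 := (card_le_card h4).trans (card_insert_le _ _)
    rwa [card_univ] at h5
  have e2 : finrank F ({l : J // l ≠ ks} → F) = Fintype.card J - 1 := by
    rw [finrank_fintype_fun_eq_card, card_ne]
  have e4 : finrank F (Ja → F) = Ja.card := by
    rw [finrank_fintype_fun_eq_card, Fintype.card_coe]
  have e5 : finrank F (Jb → F) = Jb.card := by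
    rw [finrank_fintype_fun_eq_card, Fintype.card_coe]
  have key := h h3 E (fun e => U e → F) (fun e => U1 e → F) ({l : J // l ≠ ks} → F)
    (Ja → F) (Jb → F) (fun e => mA (U1 e) (A e) (B e)) (fun e => mB ks (U1 e) (B e))
    (fun e => mC Ja (C e)) (fun e => mC Jb (C e)) (fun e => mR0 ks Ja (C e))
    (fun e => mR0 ks Jb (C e)) u k ((n + 1) * u + n * k + k)
    (fun e => mB_surj ks (U1 e) (B e) (hB e))
    (fun e => mC_inj Ja (C e) fun w hw => by
      obtain ⟨k', h4, h5⟩ := hT3 e w hw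
      exact ⟨k', hTa e h4, h5⟩)
    (by rw [e5, hJbc])
    (fun e => by
      rw [e2, e4, finrank_fintype_fun_eq_card, finrank_fintype_fun_eq_card, Fintype.card_coe]
      have := hcard e
      omega)
    (fun e => by
      rw [finrank_fintype_fun_eq_card]
      exact hu e)
    (by rw [e2, e4]; omega)
    (fun e e' hee => by
      refine le_trans ?_ (Laj.rank_ge ks Ja (C e) (C e'))
      have h4 := hdiff e e' hee
      have h5 : J1.filter (fun k => ∑ x, C e k x ≠ ∑ x, C e' k x) ⊆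
          (Ja.filter fun k => ∑ x, C e k x ≠ ∑ x, C e' k x) ∪ Jb := by
        intro l hl
        rw [mem_filter] at hl
        rcases hab l hl.1 with h6 | h6
        · exact mem_union_left _ (mem_filter.2 ⟨h6, hl.2⟩)
        · exact mem_union_right _ h6
      have h7 := (card_le_card h5).trans (card_union_le _ _)
      have h8 := pred_card_le_card_erase (s := Ja.filter fun k => ∑ x, C e k x ≠ ∑ x, C e' k x)
        (a := ks)
      omega)
  have hcnt := Laj.fr_count ks J1 Ja Jb ha hb hab hc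
    (fun α => ∀ e, GdA (U1 e) J1 (A e) (B e) (C e) (ext α))
    (fun R => ∀ e, Gb (mA (U1 e) (A e) (B e)) (mB ks (U1 e) (B e))
      ((mC Ja (C e)).prod (mC Jb (C e))) ((R.1 + mR0 ks Ja (C e)).prod (R.2 + mR0 ks Jb (C e))))
    (fun α => forall_congr' fun e =>
      Laj.gd_iff' ks (U1 e) J1 Ja Jb ha hb hab (A e) (B e) (C e) α)
  rw [← hcnt] at key
  have hkey : |((univ.filter fun α : prs J1 → ZMod 3 =>
      ∀ e, GdA (U1 e) J1 (A e) (B e) (C e) (ext α)).card : ℝ) / 3 ^ (prs J1).card -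
    c3 ^ Fintype.card E| ≤ absErr (Fintype.card E) u k ((n + 1) * u + n * k + k)
      (finrank F (Ja → F) + k) := by
    convert key using 6
    ext α
    simp
  clear key hcnt
  refine hkey.trans (le_trans ?_ hk)
  rw [← hn, e4]
  unfold absErr
  have hN : Ja.card + k = J1.card := by omega
  rw [hN]
  have p1 : (3 : ℝ) ^ u / 3 ^ J1.card ≤ (1 / 3) ^ k := by
    rw [one_div_pow, div_le_div_iff₀ (by positivity) (by positivity), one_mul, ← pow_add]
    exact pow_le_pow_right₀ (by norm_num) (by omega)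
  have p2 : (3 : ℝ) ^ (n * (u + k)) / 3 ^ ((n + 1) * u + n * k + k) ≤ (1 / 3) ^ k := by
    rw [one_div_pow, div_le_div_iff₀ (by positivity) (by positivity), one_mul, ← pow_add]
    refine pow_le_pow_right₀ (by norm_num) ?_
    rw [hnu, mul_add]
    omega
  have q1 : (0 : ℝ) ≤ n := by positivity
  have q2 : (0 : ℝ) ≤ n * 2 ^ n := by positivity
  have := mul_le_mul_of_nonneg_left p1 q1
  have := mul_le_mul_of_nonneg_left p2 q2
  linarith

end Pool.Agent.R432.JL
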