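import Pool.Agent.R432.JL.Stm
import Pool.Agent.R419.CF.Few
import Pool.Agent.Y37.CX.Fam

/-!
# Project JL: few sets have few large primes with a nontrivial symbol (JL-TB)
-/

set_option autoImplicit false
set_option linter.unusedVariables false

open scoped Classical

namespace Pool.Agent.R432.JL.Tb

open Finset Filter
open Pool.Agent.Y692.QS (Ei)
open Pool.Agent.Y699.E (PS nrm lg xab one_le_lg sum_le_inj ez_zero)
open Pool.Agent.Y703.CX
open Pool.Agent.R419.CF
open Pool.Agent.R419.CF.Few (SG_mem moment)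
open Pool.Agent.Y495.CX.Few (PN euler le_of_mem_prod mert eL_tendsto log_small zz_ge loglog_zz
  rpow_eq mod_three)
open Pool.Agent.Y37.CX (AA Sf Pf Qf Exc xab_val dtP dtQ PQ_ne prod_pos_of prod_sub_le sub_range)

/-- sets with many small primes -/
lemma part1 (δ : ℝ) (hδ : 0 < δ) : ∃ C : ℝ, 0 ≤ C ∧ ∀ᶠ X : ℕ in atTop,
    (((SG X).filter fun S => δ * eL X < ((sm (zz X) S).card : ℝ)).card : ℝ) ≤
      C * X * Real.exp (-(3 / 5) * eL X) := by
  obtain ⟨C, hC0, hC⟩ := mert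
  set κ : ℝ := Real.exp (1 / δ) with hκ
  have κ0 : 0 < κ := Real.exp_pos _
  refine ⟨Real.exp (κ * C), (Real.exp_pos _).le, ?_⟩
  filter_upwards [eL_tendsto.eventually (log_small (3 * κ) (2 / 5) (by norm_num)),
    eL_tendsto.eventually (eventually_ge_atTop 2)] with X h1 h2
  have h3 := moment X (zz X) κ κ0.le
  have h4 := hC (zz X) (zz_ge h2)
  have h5 := loglog_zz h2
  have h6 : (((SG X).filter fun S => δ * eL X < ((sm (zz X) S).card : ℝ)).card : ℝ) *
      Real.exp (eL X) ≤ ∑ S ∈ SG X, κ ^ (sm (zz X) S).card := by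
    rw [← nsmul_eq_mul, ← sum_const]
    refine le_trans ?_ (sum_le_sum_of_subset_of_nonneg
      (filter_subset (fun S => δ * eL X < ((sm (zz X) S).card : ℝ)) (SG X))
      fun S _ _ => by positivity)
    refine sum_le_sum fun S hS => ?_
    rw [mem_filter] at hS
    rw [hκ, ← Real.exp_nat_mul]
    apply Real.exp_le_exp.2
    rw [mul_one_div, le_div_iff₀ hδ]
    linarith [hS.2]
  have h7 := h6.trans h3
  have h8 : κ * ∑ p ∈ PN (zz X), (1 : ℝ) / p ≤ κ * C + 2 / 5 * eL X := by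
    have : κ * ∑ p ∈ PN (zz X), (1 : ℝ) / p ≤ κ * (3 * Real.log (eL X) + C) :=
      mul_le_mul_of_nonneg_left (by linarith) κ0.le
    nlinarith
  have h9 : (X : ℝ) * Real.exp (κ * ∑ p ∈ PN (zz X), (1 : ℝ) / p) ≤
      X * (Real.exp (κ * C) * Real.exp (2 / 5 * eL X)) := by
    rw [← Real.exp_add]
    exact mul_le_mul_of_nonneg_left (Real.exp_le_exp.2 h8) (Nat.cast_nonneg _)
  have h10 := h7.trans h9
  have h11 : (Real.exp (κ * C) * X * Real.exp (-(3 / 5) * eL X)) * Real.exp (eL X) =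
      X * (Real.exp (κ * C) * Real.exp (2 / 5 * eL X)) := by
    have : Real.exp (2 / 5 * eL X) = Real.exp (-(3 / 5) * eL X) * Real.exp (eL X) := by
      rw [← Real.exp_add]
      congr 1
      ring
    rw [this]
    ring
  rw [← h11] at h10
  exact le_of_mul_le_mul_right h10 (Real.exp_pos _)

/-- the family -/
noncomputable def LT (A B : Ei) (X z R : ℕ) : Finset (Finset ℕ) :=
  (range (X + 1)).powerset.filter fun S => (∀ p ∈ S, p.Prime ∧ p ≠ 3) ∧ ∏ p ∈ S, p ≤ X ∧
    (S.filter fun p => p % 3 = 2).card ≤ 1 ∧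
    ((la z S).filter fun p => p % 3 = 1 ∧ Exc A B p).card ≤ R

lemma mem_LT {A B : Ei} {X z R : ℕ} {S : Finset ℕ} : S ∈ LT A B X z R ↔ S ⊆ range (X + 1) ∧
    (∀ p ∈ S, p.Prime ∧ p ≠ 3) ∧ ∏ p ∈ S, p ≤ X ∧ (S.filter fun p => p % 3 = 2).card ≤ 1 ∧
    ((la z S).filter fun p => p % 3 = 1 ∧ Exc A B p).card ≤ R := by
  unfold LT
  rw [mem_filter, mem_powerset]

lemma LT_sub {A B : Ei} {X z R : ℕ} {S T : Finset ℕ} (hS : S ∈ LT A B X z R) (h : T ⊆ S) :
    T ∈ LT A B X z R := by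
  rw [mem_LT] at hS ⊢
  obtain ⟨a0, a1, a2, a3, a4⟩ := hS
  refine ⟨h.trans a0, fun p hp => a1 p (h hp), ?_, ?_, ?_⟩
  · refine le_trans ?_ a2
    refine prod_le_prod_of_subset_of_one_le' h fun p hp _ => (a1 p hp).1.one_lt.le
  · exact (card_le_card (filter_subset_filter _ h)).trans a3
  · refine (card_le_card (filter_subset_filter _ ?_)).trans a4
    unfold la
    exact filter_subset_filter _ h

/-- the weights -/
noncomputable def wg (z : ℕ) (Λ : ℝ) (p : ℕ) : ℝ :=
  (if ¬ p ≤ z ∧ p % 3 ≠ 2 then 1 / 128 else 1) * (if ¬ p ≤ z ∧ p % 3 = 2 then 1 / Λ else 1)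

lemma wg_nonneg (z : ℕ) {Λ : ℝ} (hΛ : 1 ≤ Λ) (p : ℕ) : 0 ≤ wg z Λ p := by
  unfold wg
  have : 0 ≤ 1 / Λ := by positivity
  split_ifs <;> positivity

lemma wg_le (z : ℕ) {Λ : ℝ} (hΛ : 1 ≤ Λ) (p : ℕ) :
    wg z Λ p ≤ (if p ≤ z then 1 else 0) + 1 / 128 + 1 / Λ := by
  unfold wg
  have h0 : 0 ≤ 1 / Λ := by positivity
  by_cases h1 : p ≤ z
  · simp only [h1, not_true, false_and, if_false, if_true]
    linarith
  · by_cases h2 : p % 3 = 2
    · simp only [h1, h2, not_false_iff, true_and, ne_eq, not_true, if_false, if_true]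
      linarith
    · simp only [h1, h2, not_false_iff, true_and, ne_eq, if_false, if_true]
      linarith

/-- the ordinary large primes -/
def Or' (A B : Ei) (z p : ℕ) : Prop := ¬ p ≤ z ∧ p % 3 = 1 ∧ ¬ Exc A B p

lemma one_le_wg {A B : Ei} {X z R : ℕ} {Λ : ℝ} (hΛ : 1 ≤ Λ) {S : Finset ℕ}
    (hS : S ∈ LT A B X z R) :
    1 ≤ 128 ^ R * Λ * ∏ p ∈ S.filter (fun p => ¬ Or' A B z p), wg z Λ p := by
  rw [mem_LT] at hS
  obtain ⟨a0, a1, a2, a3, a4⟩ := hS
  unfold wg
  rw [prod_mul_distrib, ← prod_filter, ← prod_filter, prod_const, prod_const]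
  have h1 : ((S.filter fun p => ¬ Or' A B z p).filter fun p => ¬ p ≤ z ∧ p % 3 ≠ 2).card ≤ R := by
    refine (card_le_card ?_).trans a4
    intro p hp
    rw [mem_filter, mem_filter] at hp
    unfold la
    rw [mem_filter, mem_filter]
    have h3 := mod_three (a1 p hp.1.1).1 (a1 p hp.1.1).2 hp.2.2
    refine ⟨⟨hp.1.1, hp.2.1⟩, h3, ?_⟩
    by_contra hE
    exact hp.1.2 ⟨hp.2.1, h3, hE⟩
  have h2 : ((S.filter fun p => ¬ Or' A B z p).filter fun p => ¬ p ≤ z ∧ p % 3 = 2).card ≤ 1 := by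
    refine (card_le_card ?_).trans a3
    intro p hp
    rw [mem_filter, mem_filter] at hp
    rw [mem_filter]
    exact ⟨hp.1.1, hp.2.2⟩
  have h3 : (1 / 128 : ℝ) ^ R ≤ (1 / 128 : ℝ) ^
      ((S.filter fun p => ¬ Or' A B z p).filter fun p => ¬ p ≤ z ∧ p % 3 ≠ 2).card :=
    pow_le_pow_of_le_one (by norm_num) (by norm_num) h1
  have h4 : (1 / Λ) ^ 1 ≤ (1 / Λ) ^
      ((S.filter fun p => ¬ Or' A B z p).filter fun p => ¬ p ≤ z ∧ p % 3 = 2).card :=
    pow_le_pow_of_le_one (by positivity) (by rw [div_le_one (by linarith)]; exact hΛ) h2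
  have Λ0 : 0 < Λ := by linarith
  calc (1 : ℝ) = 128 ^ R * Λ * ((1 / 128 : ℝ) ^ R * (1 / Λ) ^ 1) := by
        rw [pow_one, div_pow, one_pow]
        field_simp
    _ ≤ _ := by
        apply mul_le_mul_of_nonneg_left _ (by positivity)
        exact mul_le_mul h3 h4 (by positivity) (by positivity)

lemma inv_prod (S : Finset ℕ) : (1 : ℝ) / ((∏ p ∈ S, p : ℕ) : ℝ) = ∏ p ∈ S, (1 : ℝ) / p := by
  rw [prod_div_distrib, prod_const_one]
  push_cast
  rfl

/-- the logarithmic density of the family -/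
lemma LT_sum (A B : Ei) (X z R : ℕ) {Λ : ℝ} (hΛ : 1 ≤ Λ) :
    ∑ S ∈ LT A B X z R, (1 : ℝ) / ((∏ p ∈ S, p : ℕ) : ℝ) ≤ (128 ^ R * Λ *
      Real.exp (∑ p ∈ PN z, (1 : ℝ) / p + (1 / 128 + 1 / Λ) * ∑ p ∈ PN X, (1 : ℝ) / p)) *
      ∑ S ∈ HD A B X, (1 : ℝ) / ((∏ p ∈ S, p : ℕ) : ℝ) := by
  have Λ0 : 0 < Λ := by linarith
  have hnn : ∀ p : ℕ, 0 ≤ wg z Λ p * (1 / (p : ℝ)) := fun p =>
    mul_nonneg (wg_nonneg z hΛ p) (by positivity)
  have h1 : ∑ S ∈ LT A B X z R, (1 : ℝ) / ((∏ p ∈ S, p : ℕ) : ℝ) ≤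
      ∑ x ∈ (PN X).powerset ×ˢ HD A B X, (128 ^ R * Λ * ∏ p ∈ x.1, (wg z Λ p * (1 / (p : ℝ)))) *
        (1 / ((∏ p ∈ x.2, p : ℕ) : ℝ)) := by
    refine sum_le_inj (fun S => (S.filter (fun p => ¬ Or' A B z p), S.filter (fun p => Or' A B z p)))
      ?_ ?_ ?_ ?_
    · intro S hS
      rw [mem_LT] at hS
      obtain ⟨a0, a1, a2, a3, a4⟩ := hS
      rw [mem_product]
      constructor
      · rw [mem_powerset]
        intro p hp
        have hpS := (mem_filter.1 hp).1
        have h6 := (a1 p hpS).1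
        rw [mem_filter, mem_Icc]
        exact ⟨⟨h6.one_lt.le, le_of_mem_prod (fun p hp => (a1 p hp).1) a2 hpS⟩, h6⟩
      · rw [HD, mem_filter, mem_powerset]
        refine ⟨(filter_subset _ _).trans a0, fun p hp => ?_,
          (prod_sub_le (filter_subset _ _) fun p hp => (a1 p hp).1).trans a2⟩
        obtain ⟨k1, k2, k3, k4⟩ := mem_filter.1 hp
        unfold Exc at k4
        rw [not_not] at k4
        exact ⟨(a1 p k1).1, k3, k4.1, k4.2⟩
    · intro S _ T _ h
      simp only [Prod.mk.injEq] at h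
      rw [← filter_union_filter_not_eq (fun p => Or' A B z p) S, h.1, h.2,
        filter_union_filter_not_eq]
    · intro S hS
      have h2 := one_le_wg hΛ hS
      have h3 : (0 : ℝ) ≤ ∏ p ∈ S, (1 : ℝ) / p := prod_nonneg fun p _ => by positivity
      simp only
      rw [inv_prod, inv_prod, prod_mul_distrib]
      have h4 : ∏ p ∈ S, (1 : ℝ) / p = (∏ p ∈ S.filter (fun p => ¬ Or' A B z p), (1 : ℝ) / p) *
          ∏ p ∈ S.filter (fun p => Or' A B z p), (1 : ℝ) / p := by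
        rw [mul_comm, prod_filter_mul_prod_filter_not]
      calc ∏ p ∈ S, (1 : ℝ) / p = 1 * ∏ p ∈ S, (1 : ℝ) / p := (one_mul _).symm
        _ ≤ (128 ^ R * Λ * ∏ p ∈ S.filter (fun p => ¬ Or' A B z p), wg z Λ p) *
              ∏ p ∈ S, (1 : ℝ) / p := mul_le_mul_of_nonneg_right h2 h3
        _ = _ := by rw [h4]; ring
    · intro x _
      exact mul_nonneg (mul_nonneg (by positivity) (prod_nonneg fun p _ => hnn p)) (by positivity)
  refine h1.trans ?_
  have h2 : ∑ x ∈ (PN X).powerset ×ˢ HD A B X, (128 ^ R * Λ * ∏ p ∈ x.1, (wg z Λ p * (1 / (p : ℝ)))) *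
        (1 / ((∏ p ∈ x.2, p : ℕ) : ℝ)) =
      (128 ^ R * Λ * ∑ E ∈ (PN X).powerset, ∏ p ∈ E, (wg z Λ p * (1 / (p : ℝ)))) *
        ∑ S ∈ HD A B X, (1 : ℝ) / ((∏ p ∈ S, p : ℕ) : ℝ) := by
    rw [sum_product, mul_sum (PN X).powerset, sum_mul_sum]
  rw [h2]
  refine mul_le_mul_of_nonneg_right ?_ (sum_nonneg fun _ _ => by positivity)
  apply mul_le_mul_of_nonneg_left _ (by positivity)
  refine (euler (PN X) _ fun p _ => hnn p).trans ?_
  apply Real.exp_le_exp.2
  have h6 : ∀ p ∈ PN X, wg z Λ p * (1 / (p : ℝ)) ≤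
      (if p ≤ z then (1 : ℝ) / p else 0) + (1 / 128 + 1 / Λ) * (1 / p) := by
    intro p _
    have h7 := mul_le_mul_of_nonneg_right (wg_le z hΛ p) (show (0 : ℝ) ≤ 1 / p by positivity)
    refine h7.trans (le_of_eq ?_)
    split_ifs <;> ring
  refine (sum_le_sum h6).trans ?_
  rw [sum_add_distrib, ← mul_sum, ← sum_filter]
  gcongr
  intro p hp
  rw [mem_filter, mem_filter, mem_Icc] at hp
  rw [mem_filter, mem_Icc]
  exact ⟨⟨hp.1.1.1, hp.2⟩, hp.1.2⟩

/-- sets with few exceptional large primes -/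
lemma part2 (hL : LamP) (hs : S_SIE) (hH : S_HAL) {A B : Ei} (hA : PS A) (hB : PS B)
    (hAB : A ≠ B) : ∃ C : ℝ, 0 ≤ C ∧ ∀ᶠ X : ℕ in atTop,
    ((LT A B X (zz X) ⌊eL X / 200⌋₊).card : ℝ) ≤ C * X * Real.exp (-(3 / 5) * eL X) := by
  obtain ⟨C, hC0, hC⟩ := mert
  obtain ⟨C', hC'1, hC'⟩ := hs
  obtain ⟨C₂, hC₂1, hC₂⟩ := hH hL
  have hlg := one_le_lg (nrm A * nrm B)
  set K₀ : ℝ := C₂ * (lg (nrm A * nrm B)) ^ (1 / 6 : ℝ) with hK₀
  have hK₀0 : 0 ≤ K₀ := by positivity
  refine ⟨C' * (Real.exp (3 * C + 1) * K₀), by positivity, ?_⟩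
  filter_upwards [eL_tendsto.eventually (log_small 4 (3 / 100) (by norm_num)),
    eL_tendsto.eventually (eventually_ge_atTop 2), eventually_ge_atTop 3] with X h1 h2 h3
  set l := eL X with hl
  have h4 := hC (zz X) (zz_ge h2)
  have h5 := loglog_zz h2
  have h6 := hC X h3
  rw [← hl] at h5
  have h7 := hC' X (LT A B X (zz X) ⌊l / 200⌋₊) (by omega)
    (fun S hS => ⟨fun p hp => ((mem_LT.1 hS).2.1 p hp).1, (mem_LT.1 hS).2.2.1⟩)
    (fun S hS T hT => LT_sub hS hT)
  have h8 := LT_sum A B X (zz X) ⌊l / 200⌋₊ (Λ := l) (by linarith)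
  have hHD := hC₂ A B X hA hB hAB (by omega)
  rw [rpow_eq h2, ← hl, ← hK₀] at hHD
  have hlX : Real.log X = Real.exp l := by
    have := rpow_eq (X := X) h2 1
    rwa [Real.rpow_one, one_mul] at this
  rw [hlX] at h7
  have h9 : (128 : ℝ) ^ ⌊l / 200⌋₊ ≤ Real.exp (245 / 10000 * l) := by
    have e1 : (128 : ℝ) = Real.exp (Real.log 128) := (Real.exp_log (by norm_num)).symm
    rw [e1, ← Real.exp_nat_mul]
    apply Real.exp_le_exp.2
    have e2 : ((⌊l / 200⌋₊ : ℕ) : ℝ) ≤ l / 200 := Nat.floor_le (by positivity)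
    have e3 : Real.log 128 ≤ 49 / 10 := by
      have : (128 : ℝ) = 2 ^ 7 := by norm_num
      rw [this, Real.log_pow]
      have := Real.log_two_lt_d9
      push_cast
      linarith
    have e4 : 0 ≤ Real.log 128 := Real.log_nonneg (by norm_num)
    calc ((⌊l / 200⌋₊ : ℕ) : ℝ) * Real.log 128 ≤ (l / 200) * (49 / 10) :=
          mul_le_mul e2 e3 e4 (by positivity)
      _ = _ := by ring
  have h10 : l = Real.exp (Real.log l) := (Real.exp_log (by linarith)).symm
  have h11 : ∑ p ∈ PN (zz X), (1 : ℝ) / p + (1 / 128 + 1 / l) * ∑ p ∈ PN X, (1 : ℝ) / p ≤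
      3 * Real.log l + C + (1 / 128 * (l + C) + (1 + C)) := by
    have e1 : (1 / 128 + 1 / l) * ∑ p ∈ PN X, (1 : ℝ) / p ≤ (1 / 128 + 1 / l) * (l + C) := by
      apply mul_le_mul_of_nonneg_left h6
      positivity
    have e2 : 1 / l * (l + C) ≤ 1 + C := by
      rw [mul_add, one_div_mul_cancel (by linarith)]
      have : 1 / l ≤ 1 := by rw [div_le_one (by linarith)]; linarith
      have := mul_le_mul_of_nonneg_right this hC0
      linarith
    nlinarith
  have h12 : (128 ^ ⌊l / 200⌋₊ * l * Real.exp (∑ p ∈ PN (zz X), (1 : ℝ) / p +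
      (1 / 128 + 1 / l) * ∑ p ∈ PN X, (1 : ℝ) / p)) * (K₀ * Real.exp (1 / 3 * l)) ≤
      (Real.exp (3 * C + 1) * K₀) * Real.exp (2 / 5 * l) := by
    calc _ ≤ (Real.exp (245 / 10000 * l) * l *
          Real.exp (3 * Real.log l + C + (1 / 128 * (l + C) + (1 + C)))) *
            (K₀ * Real.exp (1 / 3 * l)) := by
          gcongr
      _ = (Real.exp (245 / 10000 * l) * Real.exp (Real.log l) *
          Real.exp (3 * Real.log l + C + (1 / 128 * (l + C) + (1 + C)))) *
            (K₀ * Real.exp (1 / 3 * l)) := by rw [← h10]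
      _ = K₀ * Real.exp (245 / 10000 * l + Real.log l +
          (3 * Real.log l + C + (1 / 128 * (l + C) + (1 + C))) + 1 / 3 * l) := by
          rw [Real.exp_add (245 / 10000 * l + Real.log l +
            (3 * Real.log l + C + (1 / 128 * (l + C) + (1 + C)))) (1 / 3 * l),
            Real.exp_add (245 / 10000 * l + Real.log l)
              (3 * Real.log l + C + (1 / 128 * (l + C) + (1 + C))),
            Real.exp_add (245 / 10000 * l) (Real.log l)]
          ring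
      _ ≤ K₀ * Real.exp (3 * C + 1 + 2 / 5 * l) := by
          refine mul_le_mul_of_nonneg_left (Real.exp_le_exp.2 ?_) hK₀0
          linarith
      _ = _ := by rw [Real.exp_add]; ring
  have h13 : ((LT A B X (zz X) ⌊l / 200⌋₊).card : ℝ) * Real.exp l ≤
      C' * X * ((Real.exp (3 * C + 1) * K₀) * Real.exp (2 / 5 * l)) := by
    refine h7.trans ?_
    refine mul_le_mul_of_nonneg_left ((h8.trans ?_).trans h12) (by positivity)
    exact mul_le_mul_of_nonneg_left hHD (by positivity)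
  have h14 : (C' * (Real.exp (3 * C + 1) * K₀) * X * Real.exp (-(3 / 5) * l)) * Real.exp l =
      C' * X * ((Real.exp (3 * C + 1) * K₀) * Real.exp (2 / 5 * l)) := by
    have : Real.exp (2 / 5 * l) = Real.exp (-(3 / 5) * l) * Real.exp l := by
      rw [← Real.exp_add]
      congr 1
      ring
    rw [this]
    ring
  rw [← h14] at h13
  exact le_of_mul_le_mul_right h13 (Real.exp_pos _)

lemma zz_tendsto : Tendsto zz atTop atTop := by
  unfold zz
  refine tendsto_nat_floor_atTop.comp (Real.tendsto_exp_atTop.comp ?_)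
  exact (tendsto_pow_atTop (by norm_num)).comp eL_tendsto

end Pool.Agent.R432.JL.Tb

namespace Pool.Agent.R432.JL

open Finset Filter
open Pool.Agent.Y692.QS (Ei)
open Pool.Agent.Y699.E (PS nrm lg xab one_le_lg sum_le_inj ez_zero)
open Pool.Agent.Y703.CX
open Pool.Agent.R419.CF
open Pool.Agent.R419.CF.Few (SG_mem moment)
open Pool.Agent.Y495.CX.Few (PN euler le_of_mem_prod mert eL_tendsto log_small zz_ge loglog_zz
  rpow_eq mod_three)
open Pool.Agent.Y37.CX (AA Sf Pf Qf Exc xab_val dtP dtQ PQ_ne prod_pos_of prod_sub_le sub_range)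

theorem tb : S_TB := by
  intro hL hs hH M w a b hM hw
  have hM3 : ∀ u ∈ M, u.Prime ∧ u ≠ 3 := fun u hu => ⟨(hM u hu).1, by
    have := (hM u hu).2
    rintro rfl
    omega⟩
  have hSf : Sf false M = M := by unfold Sf; rw [if_neg (by simp)]
  have hdP := dtP hL hM3 false w
  have hdQ := dtQ hL hM3 false w
  have hAB : AA (Sf false M) (Pf false w) ≠ AA (Sf false M) (Qf false w) := by
    obtain ⟨u, hu, hv⟩ := hw
    have hu' : u ∈ Sf false M := by rw [hSf]; exact hu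
    exact hdP.ne hdQ hu' (PQ_ne hL hM3 false w hu' hv)
  set A := AA (Sf false M) (Pf false w) with hA
  set B := AA (Sf false M) (Qf false w) with hB
  have hexc : ∀ p : ℕ, p.Prime → p % 3 = 1 → p ∉ M → Exc A B p → ∑ q ∈ M, w q * lam p q ≠ 0 := by
    intro p hp hp1 hpM hE h0
    apply hE
    obtain ⟨e1, e2⟩ := xab_val hL hM3 false w hp hp1 hpM
    rw [← hA, ← hB, hSf] at e1 e2
    simp only [Bool.false_eq_true, if_false] at e1 e2
    rw [h0, ez_zero] at e1
    have h4 : ∑ u ∈ M, w u * -lam p u = 0 := by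
      simp only [mul_neg, sum_neg_distrib, h0, neg_zero]
    rw [h4, ez_zero] at e2
    exact ⟨e1, e2⟩
  set δ : ℝ := 1 / (400 * (a + 1)) with hδ
  have hδ0 : 0 < δ := by positivity
  obtain ⟨C₁, hC₁, h1⟩ := Tb.part1 δ hδ0
  obtain ⟨C₂, hC₂, h2⟩ := Tb.part2 hL hs hH hdP.ps hdQ.ps hAB
  have h3 := ((h1.and h2).and (eL_tendsto.eventually
    (eventually_ge_atTop (max 2 (400 * (b : ℝ)))))).and
      (Tb.zz_tendsto.eventually (eventually_ge_atTop (M.sup id)))
  rw [eventually_atTop] at h3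
  obtain ⟨X₀, hX₀⟩ := h3
  refine ⟨C₁ + C₂, X₀, fun X hX => ?_⟩
  obtain ⟨⟨⟨h4, h5⟩, h6⟩, hzM⟩ := hX₀ X hX
  have h7 : 2 ≤ eL X := (le_max_left _ _).trans h6
  have h8 : 400 * (b : ℝ) ≤ eL X := (le_max_right _ _).trans h6
  rw [rpow_eq h7]
  have h9 : ((SG X).filter fun S => ((la (zz X) S).filter fun p =>
        p % 3 = 1 ∧ ∑ q ∈ M, w q * lam p q ≠ 0).card ≤ a * (sm (zz X) S).card + b) ⊆
      ((SG X).filter fun S => δ * eL X < ((sm (zz X) S).card : ℝ)) ∪
        Tb.LT A B X (zz X) ⌊eL X / 200⌋₊ := by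
    intro S hS
    rw [mem_filter] at hS
    rw [mem_union, mem_filter]
    by_cases hc : δ * eL X < ((sm (zz X) S).card : ℝ)
    · exact Or.inl ⟨hS.1, hc⟩
    · right
      rw [not_lt] at hc
      obtain ⟨a1, a2, a3⟩ := SG_mem hS.1
      rw [Tb.mem_LT]
      refine ⟨?_, a1, a3, a2.le, ?_⟩
      · intro p hp
        rw [mem_range]
        have := le_of_mem_prod (fun p hp => (a1 p hp).1) a3 hp
        omega
      · apply Nat.le_floor
        have h10 : (((la (zz X) S).filter fun p => p % 3 = 1 ∧ Exc A B p).card : ℝ) ≤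
            a * ((sm (zz X) S).card : ℝ) + b := by
          have h11 : ((la (zz X) S).filter fun p => p % 3 = 1 ∧ Exc A B p).card ≤
              ((la (zz X) S).filter fun p => p % 3 = 1 ∧ ∑ q ∈ M, w q * lam p q ≠ 0).card := by
            refine card_le_card fun p hp => ?_
            rw [mem_filter] at hp ⊢
            obtain ⟨hp1, hp2, hp3⟩ := hp
            unfold la at hp1
            rw [mem_filter] at hp1
            refine ⟨by unfold la; rw [mem_filter]; exact hp1, hp2, ?_⟩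
            refine hexc p (a1 p hp1.1).1 hp2 (fun hpM => hp1.2 ?_) hp3
            exact (Finset.le_sup (f := id) hpM).trans hzM
          exact_mod_cast h11.trans hS.2
        have h12 : (a : ℝ) * ((sm (zz X) S).card : ℝ) ≤ eL X / 400 := by
          have h13 : (a : ℝ) * ((sm (zz X) S).card : ℝ) ≤ a * (δ * eL X) :=
            mul_le_mul_of_nonneg_left hc (Nat.cast_nonneg _)
          refine h13.trans ?_
          have h14 : (a : ℝ) * δ ≤ 1 / 400 := by
            rw [hδ, mul_one_div, div_le_div_iff₀ (by positivity) (by norm_num)]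
            linarith
          have h15 : (a : ℝ) * (δ * eL X) = (a * δ) * eL X := by ring
          rw [h15]
          calc (a * δ) * eL X ≤ 1 / 400 * eL X := mul_le_mul_of_nonneg_right h14 (by linarith)
            _ = _ := by ring
        linarith
  have h10 : (((SG X).filter fun S => ((la (zz X) S).filter fun p =>
        p % 3 = 1 ∧ ∑ q ∈ M, w q * lam p q ≠ 0).card ≤ a * (sm (zz X) S).card + b).card : ℝ) ≤
      (((SG X).filter fun S => δ * eL X < ((sm (zz X) S).card : ℝ)).card : ℝ) +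
        ((Tb.LT A B X (zz X) ⌊eL X / 200⌋₊).card : ℝ) := by
    exact_mod_cast (card_le_card h9).trans (card_union_le _ _)
  refine h10.trans ((add_le_add h4 h5).trans (le_of_eq ?_))
  ring

end Pool.Agent.R432.JL
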