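import Pool.Agent.R419.CF.Defs

/-!
# Project JL: the joint law of all the cubic twists by a finite set of primes (statements)

`M` is a finite set of primes `≡ 1` modulo `9`. For a number `D` of the class `Cls`, squarefree and prime
to `M`, we consider the `3 ^ #M` numbers `D ∏_{q ∈ M} q ^ {e q}`, `e : M → ZMod 3`, with exponents
`0, 1, 2`. The number `D` is represented by the set `S = M ∪ {p : p ∣ D}` (which is in `SW M X` for
`D ∏ M ≤ X`).  The final statement `S_JL` says that for a set `T` of exponents the numbers with `e ∈ T` are all good (`NoSplit`)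
for the proportion `c3 ^ #T` of the `D`.
-/

set_option autoImplicit false

open scoped Classical

namespace Pool.Agent.R432.JL

open Finset Filter
open Pool.Agent.Y703.CX
open Pool.Agent.R419.CF

/-- the exponent -/
noncomputable def ex (M : Finset ℕ) (e : M → ZMod 3) (q : ℕ) : ZMod 3 :=
  if h : q ∈ M then e ⟨q, h⟩ else 1

/-- the primes with exponent zero -/
noncomputable def M0 (M : Finset ℕ) (e : M → ZMod 3) : Finset ℕ := M.filter fun q => ex M e q = 0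

/-- the primes with exponent two -/
noncomputable def M2 (M : Finset ℕ) (e : M → ZMod 3) : Finset ℕ := M.filter fun q => ex M e q = 2

/-- the joint property, for the exponents in `T` -/
def GJ (M : Finset ℕ) (T : Finset (M → ZMod 3)) (S : Finset ℕ) : Prop :=
  ∀ e ∈ T, GdW (M2 M e) (S \ M0 M e)

/-- the labels are not degenerate, in a strong form for the primes in `M` -/
def NdJ (M : Finset ℕ) (a b : ℕ) (S₀ S₁ : Finset ℕ) : Prop :=
  Nd S₀ S₁ ∧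
  (∀ w : ℕ → ZMod 3, (∃ q ∈ M, w q ≠ 0) → a * S₀.card + b ≤
    (S₁.filter fun p => p % 3 = 1 ∧ ∑ q ∈ M, w q * lam p q ≠ 0).card) ∧
  a * S₀.card + b ≤ (S₁.filter fun p => p % 3 = 1).card

/-- JL-ABS: the abstract joint law (proved in `Abs.lean`). `fr` and `Gb` are from `Y759/CX/LA.lean`. -/
noncomputable def absErr (n u m t N : ℕ) : ℝ :=
  n * (4 * (1 / 3) ^ m + 4 * (3 ^ u / 3 ^ N)) + n * 2 ^ n * (3 ^ (n * (u + m)) / 3 ^ t)

/-- JL-LA: linear algebra over the field with three elements. -/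
def S_LAJ : Prop := ∀ (E : Type) [Fintype E] (ε : ℝ), 0 < ε → ∃ a b : ℕ,
  ∀ (J : Type) [Fintype J] (U : E → Type) [∀ e, Fintype (U e)] (U1 : ∀ e, Finset (U e))
    (J1 : Finset J) (ks : J) (u : ℕ),
  (∀ e, Fintype.card (U e) + Fintype.card J = (U1 e).card + J1.card + 1) →
  (∀ e, Fintype.card (U e) ≤ u) → (∀ l, l ∉ J1 → l = ks) →
  ∀ (A : ∀ e, U e → U e → ZMod 3) (B : ∀ e, U e → J → ZMod 3) (C : ∀ e, J → U e → ZMod 3),
  (∀ e, ∀ v : U e → ZMod 3, (∃ x ∈ U1 e, v x ≠ 0) →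
    ∃ l, l ≠ ks ∧ ∑ x ∈ U1 e, v x * B e x l ≠ 0) →
  (∀ e, ∀ w : U e → ZMod 3, (∃ x, w x ≠ 0) → ∃ k ∈ J1, ∑ x, w x * C e k x ≠ 0) →
  (∀ e e', e ≠ e' → a * u + b ≤ (J1.filter fun k => ∑ x, C e k x ≠ ∑ x, C e' k x).card) →
  a * u + b ≤ J1.card →
  |((univ.filter fun α : prs J1 → ZMod 3 =>
      ∀ e, GdA (U1 e) J1 (A e) (B e) (C e) (ext α)).card : ℝ) / 3 ^ (prs J1).card -
    c3 ^ Fintype.card E| ≤ ε

/-- JL-TB: few sets have few large primes with a nontrivial symbol. -/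
def S_TB : Prop := LamP → S_SIE → S_HAL → ∀ (M : Finset ℕ) (w : ℕ → ZMod 3) (a b : ℕ),
  (∀ q ∈ M, q.Prime ∧ q % 3 = 1) → (∃ q ∈ M, w q ≠ 0) → ∃ (C : ℝ) (X₀ : ℕ), ∀ X : ℕ, X₀ ≤ X →
    (((SG X).filter fun S => ((la (zz X) S).filter fun p =>
        p % 3 = 1 ∧ ∑ q ∈ M, w q * lam p q ≠ 0).card ≤ a * (sm (zz X) S).card + b).card : ℝ) ≤
      C * X * (Real.log X) ^ (-(3 / 5) : ℝ)

/-- JL-BOX: the count in a box. -/
def S_BOXJ : Prop := S_EQ → S_LAJ → ∀ (M : Finset ℕ) (T : Finset (M → ZMod 3)) (ε : ℝ),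
  (∀ q ∈ M, q.Prime ∧ q % 3 = 1) → 0 < ε → ∃ a b : ℕ, ∀ (ι : Type) [Fintype ι] (J1 : Finset ι)
    (C : ι → Finset ℕ) (X : ι → ℕ) (κ : ℝ) (S₀ : Finset ℕ), M ⊆ S₀ → 0 ≤ κ →
    (∀ i, (C i).card ≤ X i) → HB J1 C X κ → (∀ u ∈ S₀, u.Prime ∧ u ≠ 3) →
    (∀ i, ∀ p ∈ C i, p.Prime ∧ p ∉ S₀ ∧ (i ∈ J1 → p % 3 = 1) ∧ (i ∉ J1 → p % 3 = 2)) →
    (∀ i l, i ≠ l → Disjoint (C i) (C l)) → J1.Nonempty →
    (S₀.filter fun p => p % 3 = 2).card + (univ \ J1).card = 1 →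
    |(((Fintype.piFinset C).filter fun p => NdJ M a b S₀ (univ.image p) ∧
        GJ M T (S₀ ∪ univ.image p)).card : ℝ) -
      c3 ^ T.card *
        (((Fintype.piFinset C).filter fun p => NdJ M a b S₀ (univ.image p)).card : ℝ)| ≤
    ε * (((Fintype.piFinset C).filter fun p => NdJ M a b S₀ (univ.image p)).card : ℝ) +
    3 ^ (2 * S₀.card * Fintype.card ι + (prs J1).card) * (κ * ∏ j, (X j : ℝ))

/-- JL-FIN: the joint law, for sets of primes. -/
def S_JL : Prop := LamP → S_BIL1 → S_BIL2 → S_EQ → S_LAJ → S_BOXJ → S_TB → S_SIE → S_HAL →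
  S_MER → S_CHE → S_LOW → S_C3 → ∀ (M : Finset ℕ) (T : Finset (M → ZMod 3)), M.Nonempty →
  (∀ q ∈ M, q.Prime ∧ q % 9 = 1) →
  Tendsto (fun X : ℕ => (((SW M X).filter fun S => GJ M T S).card : ℝ) / ((SW M X).card : ℝ)) atTop
    (nhds (c3 ^ T.card))

end Pool.Agent.R432.JL
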