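import Pool.Agent.R432.JL.SAbs

/-!
# JL-ABS: the joint law for block maps with the same random part
-/

set_option autoImplicit false

open scoped Classical

namespace Pool.Agent.R432.JL

open Function Module
open Pool.Agent.Y703.CX
open Pool.Agent.Y759.CX

namespace Absx

lemma fr_false {G : Type} {P : G → Prop} (h : ∀ g, ¬ P g) : fr P = 0 := by
  unfold fr
  have : IsEmpty {g // P g} := ⟨fun x => h x.1 x.2⟩
  rw [Nat.card_of_isEmpty, Nat.cast_zero, zero_div]

lemma fr_pi {E : Type} [Fintype E] {G : E → Type} (P : ∀ e, G e → Prop) :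
    fr (fun h : ∀ e, G e => ∀ e, P e (h e)) = ∏ e, fr (P e) := by
  unfold fr
  rw [Nat.card_congr (Equiv.subtypePiEquivPi (p := fun {e} => P e)), Nat.card_pi, Nat.card_pi,
    Finset.prod_div_distrib]
  push_cast
  rfl

lemma fr_shift {H : Type} [AddGroup H] (c : H) (P : H → Prop) : fr (fun h => P (h + c)) = fr P :=
  fr_equiv (Equiv.addRight c) P

lemma fr_or {G : Type} [Finite G] (P Q : G → Prop) : fr (fun g => P g ∨ Q g) ≤ fr P + fr Q := by
  have h1 : Nat.card {g // P g ∨ Q g} ≤ Nat.card {g // P g} + Nat.card {g // Q g} := by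
    rw [← Nat.card_sum]
    let f : {g // P g ∨ Q g} → {g // P g} ⊕ {g // Q g} := fun x =>
      if h : P x.1 then Sum.inl ⟨x.1, h⟩ else Sum.inr ⟨x.1, x.2.resolve_left h⟩
    have key : ∀ x, Sum.elim Subtype.val Subtype.val (f x) = x.1 := by
      intro x
      show Sum.elim Subtype.val Subtype.val (if h : P x.1 then
        (Sum.inl ⟨x.1, h⟩ : {g // P g} ⊕ {g // Q g}) else
        Sum.inr ⟨x.1, x.2.resolve_left h⟩) = x.1
      split_ifs <;> rfl
    refine Nat.card_le_card_of_injective f ?_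
    intro x y hxy
    exact Subtype.ext (by rw [← key x, ← key y, hxy])
  unfold fr
  rw [← add_div]
  refine div_le_div_of_nonneg_right ?_ (by positivity)
  exact_mod_cast h1

lemma card_fr {G : Type} [Finite G] [Nonempty G] (P : G → Prop) :
    (Nat.card {g // P g} : ℝ) = fr P * Nat.card G := by
  have h2 : (Nat.card G : ℝ) ≠ 0 := by exact_mod_cast Nat.card_pos.ne'
  unfold fr
  rw [div_mul_cancel₀ _ h2]

lemma avg {G : Type} [Fintype G] [Nonempty G] (a : G → ℝ) (p : ℝ) (hp0 : 0 ≤ p) (hp1 : p ≤ 1)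
    (ha0 : ∀ g, 0 ≤ a g) (ha1 : ∀ g, a g ≤ 1) (Q : G → Prop) (hQ : ∀ g, Q g → a g = p) :
    |(∑ g, a g) / Nat.card G - p| ≤ fr (fun g => ¬ Q g) := by
  have h2 : (0 : ℝ) < Nat.card G := by exact_mod_cast Nat.card_pos
  have h3 : (∑ g, a g) / Nat.card G - p = (∑ g, (a g - p)) / Nat.card G := by
    rw [Finset.sum_sub_distrib, Finset.sum_const, Finset.card_univ, nsmul_eq_mul, sub_div,
      Nat.card_eq_fintype_card, mul_div_cancel_left₀ _ (by
        rw [Nat.card_eq_fintype_card] at h2; exact h2.ne')]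
  rw [h3, abs_div, abs_of_pos h2]
  unfold fr
  refine div_le_div_of_nonneg_right ?_ h2.le
  refine (Finset.abs_sum_le_sum_abs _ _).trans ?_
  have h4 : ∀ g ∈ Finset.univ, |a g - p| ≤ if ¬ Q g then (1 : ℝ) else 0 := by
    intro g _
    by_cases h : Q g
    · rw [if_neg (not_not.2 h), hQ g h, sub_self, abs_zero]
    · rw [if_pos h, abs_le]
      constructor <;> linarith [ha0 g, ha1 g]
  refine (Finset.sum_le_sum h4).trans (le_of_eq ?_)
  rw [Finset.sum_boole, Nat.card_eq_fintype_card, Fintype.card_subtype]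

lemma pow_dist (a b : ℝ) (ha0 : 0 ≤ a) (ha1 : a ≤ 1) (hb0 : 0 ≤ b) (hb1 : b ≤ 1) (n : ℕ) :
    |a ^ n - b ^ n| ≤ n * |a - b| := by
  induction n with
  | zero => simp
  | succ n ih =>
    have e : a ^ (n + 1) - b ^ (n + 1) = a * (a ^ n - b ^ n) + (a - b) * b ^ n := by ring
    rw [e]
    refine (abs_add_le _ _).trans ?_
    rw [abs_mul, abs_mul, abs_of_nonneg ha0, abs_of_nonneg (pow_nonneg hb0 n)]
    have h1 : b ^ n ≤ 1 := pow_le_one₀ hb0 hb1
    have h2 : a * |a ^ n - b ^ n| ≤ 1 * |a ^ n - b ^ n| :=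
      mul_le_mul_of_nonneg_right ha1 (abs_nonneg _)
    have h3 : |a - b| * b ^ n ≤ |a - b| * 1 := mul_le_mul_of_nonneg_left h1 (abs_nonneg _)
    push_cast
    linarith

lemma pm_ge (m : ℕ) : 1 / 2 + 1 / 2 * (1 / 3 : ℝ) ^ m ≤ pm m := by
  induction m with
  | zero => unfold pm; norm_num
  | succ m ih =>
    have e : pm (m + 1) = pm m * (1 - (1 / 3 : ℝ) ^ (m + 1)) := by
      unfold pm
      rw [Finset.prod_range_succ]
    rw [e]
    have h1 := pm_le_one m
    have h2 : (0 : ℝ) ≤ (1 / 3 : ℝ) ^ m := by positivity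
    rw [pow_succ]
    nlinarith

section one

variable {X Y V Wa Wb : Type} [AddCommGroup X] [Module F X] [Finite X]
  [AddCommGroup Y] [Module F Y] [Finite Y] [AddCommGroup V] [Module F V] [Finite V]
  [AddCommGroup Wa] [Module F Wa] [Finite Wa] [AddCommGroup Wb] [Module F Wb] [Finite Wb]

/-- the kernel -/
def Kr (A : X →ₗ[F] Y) (B : V →ₗ[F] Y) (C : X →ₗ[F] Wa) (R : V →ₗ[F] Wa) :
    Submodule F (X × V) :=
  LinearMap.ker ((A.coprod B).prod (C.coprod R))

variable {A : X →ₗ[F] Y} {B : V →ₗ[F] Y} {C : X →ₗ[F] Wa} {R : V →ₗ[F] Wa}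

lemma mem_Kr {p : X × V} : p ∈ Kr A B C R ↔ A p.1 + B p.2 = 0 ∧ C p.1 + R p.2 = 0 := by
  rw [Kr, LinearMap.mem_ker]
  constructor
  · intro h
    exact ⟨congrArg Prod.fst h, congrArg Prod.snd h⟩
  · intro h
    exact Prod.ext h.1 h.2

lemma Kr_dim (A : X →ₗ[F] Y) (B : V →ₗ[F] Y) (C : X →ₗ[F] Wa) (R : V →ₗ[F] Wa) {m : ℕ}
    (h : finrank F X + finrank F V = finrank F Y + (finrank F Wa + m)) :
    m ≤ finrank F (Kr A B C R) := by
  have h1 := LinearMap.finrank_range_add_finrank_ker ((A.coprod B).prod (C.coprod R))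
  have h2 := Submodule.finrank_le (LinearMap.range ((A.coprod B).prod (C.coprod R)))
  rw [finrank_prod] at h1 h2
  unfold Kr
  omega

/-- the projection to `V` -/
def sn (A : X →ₗ[F] Y) (B : V →ₗ[F] Y) (C : X →ₗ[F] Wa) (R : V →ₗ[F] Wa) :
    Kr A B C R →ₗ[F] V := (LinearMap.snd F X V) ∘ₗ (Kr A B C R).subtype

lemma sn_inj (hC : Injective C) : Injective (sn A B C R) := by
  refine (injective_iff_map_eq_zero _).2 ?_
  rintro ⟨⟨x, v⟩, hp⟩ hv
  have hv' : v = 0 := hv
  obtain ⟨h1, h2⟩ := mem_Kr.1 hp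
  simp only at h2
  rw [hv', map_zero, add_zero] at h2
  have hx : x = 0 := hC (by rw [h2, map_zero])
  exact Subtype.ext (Prod.ext hx hv')

lemma Gb_iff (Cb : X →ₗ[F] Wb) (S : V →ₗ[F] Wb) :
    Gb A B (C.prod Cb) (R.prod S) ↔ Injective ((Cb.coprod S) ∘ₗ (Kr A B C R).subtype) := by
  constructor
  · intro h
    refine (injective_iff_map_eq_zero _).2 ?_
    rintro ⟨⟨x, v⟩, hp⟩ h0
    obtain ⟨h1, h2⟩ := mem_Kr.1 hp
    have h3 : Cb x + S v = 0 := h0
    obtain ⟨hx, hv⟩ := h x v h1 (Prod.ext h2 h3)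
    exact Subtype.ext (Prod.ext hx hv)
  · intro h x v h1 h2
    have h3 : C x + R v = 0 := congrArg Prod.fst h2
    have h4 : Cb x + S v = 0 := congrArg Prod.snd h2
    have h5 : (⟨(x, v), mem_Kr.2 ⟨h1, h3⟩⟩ : Kr A B C R) = 0 := by
      apply (injective_iff_map_eq_zero _).1 h
      exact h4
    have h6 := congrArg (fun z : Kr A B C R => (z : X × V)) h5
    exact ⟨congrArg Prod.fst h6, congrArg Prod.snd h6⟩

/-- the fibre over a fixed `R`, one block -/
lemma one_fix (hC : Injective C) (Cb : X →ₗ[F] Wb) (Db : V →ₗ[F] Wb) {m : ℕ}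
    (hWb : finrank F Wb = m)
    (h : finrank F X + finrank F V = finrank F Y + (finrank F Wa + m)) :
    fr (fun Rb : V →ₗ[F] Wb => Gb A B (C.prod Cb) (R.prod (Rb + Db))) =
      if finrank F (Kr A B C R) = m then pm m else 0 := by
  split_ifs with hd
  · let π : (V →ₗ[F] Wb) →+ (Kr A B C R →ₗ[F] Wb) :=
      { toFun := fun R' => R' ∘ₗ sn A B C R
        map_zero' := LinearMap.zero_comp _
        map_add' := fun R' S => LinearMap.add_comp _ _ _ }
    have hπ : Surjective π := by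
      obtain ⟨l, hl⟩ := (sn A B C R).exists_leftInverse_of_injective
        (LinearMap.ker_eq_bot.2 (sn_inj hC))
      intro g
      refine ⟨g ∘ₗ l, ?_⟩
      show (g ∘ₗ l) ∘ₗ sn A B C R = g
      rw [LinearMap.comp_assoc, hl, LinearMap.comp_id]
    let c : Kr A B C R →ₗ[F] Wb := (Cb.coprod Db) ∘ₗ (Kr A B C R).subtype
    have h1 : (fun Rb : V →ₗ[F] Wb => Gb A B (C.prod Cb) (R.prod (Rb + Db))) =
        fun Rb => (fun h : Kr A B C R →ₗ[F] Wb => Injective (h + c)) (π Rb) := by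
      funext Rb
      apply propext
      rw [Gb_iff]
      have : (Cb.coprod (Rb + Db)) ∘ₗ (Kr A B C R).subtype = π Rb + c := by
        refine LinearMap.ext fun k => ?_
        show Cb k.1.1 + (Rb k.1.2 + Db k.1.2) = Rb k.1.2 + (Cb k.1.1 + Db k.1.2)
        abel
      rw [this]
    rw [h1, fr_comp π hπ (fun h : Kr A B C R →ₗ[F] Wb => Injective (h + c)),
      fr_shift c (fun h : Kr A B C R →ₗ[F] Wb => Injective h), fr_inj hd hWb]
  · apply fr_false
    intro Rb hg
    rw [Gb_iff] at hg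
    have h1 := LinearMap.finrank_le_finrank_of_injective hg
    have h2 := Kr_dim A B C R h
    omega

/-- the kernel has the expected dimension with high probability -/
lemma one_dim (hC3 : S_C3) (A : X →ₗ[F] Y) (B : V →ₗ[F] Y) (Ca : X →ₗ[F] Wa)
    (Cb : X →ₗ[F] Wb) (Da : V →ₗ[F] Wa) (Db : V →ₗ[F] Wb) (hB : Surjective B)
    (hC : Injective Ca) {m u : ℕ} (hWb : finrank F Wb = m)
    (h : finrank F X + finrank F V = finrank F Y + (finrank F Wa + m)) (hu : finrank F X ≤ u) :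
    fr (fun Ra : V →ₗ[F] Wa => finrank F (Kr A B Ca (Ra + Da)) ≠ m) ≤
      2 * (1 / 3) ^ m + 4 * (3 ^ u / 3 ^ (finrank F Wa + m)) := by
  have := Fintype.ofFinite (V →ₗ[F] Wa)
  have hN : finrank F (Wa × Wb) = finrank F Wa + m := by rw [finrank_prod, hWb]
  have hCi : Injective (Ca.prod Cb) := fun x y hxy => hC (congrArg Prod.fst hxy)
  have hXN : finrank F X ≤ finrank F Wa + m := by
    rw [← hN]
    exact LinearMap.finrank_le_finrank_of_injective hCi
  have hbl := fr_block A B (Ca.prod Cb) hB hCi (by rw [hN]; exact h)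
  rw [hN] at hbl
  let e : (V →ₗ[F] Wa) × (V →ₗ[F] Wb) ≃ (V →ₗ[F] Wa × Wb) :=
    { toFun := fun R => (R.1 + Da).prod (R.2 + Db)
      invFun := fun S => ((LinearMap.fst F Wa Wb) ∘ₗ S - Da, (LinearMap.snd F Wa Wb) ∘ₗ S - Db)
      left_inv := fun R => by
        refine Prod.ext ?_ ?_
        · refine LinearMap.ext fun v => ?_
          show R.1 v + Da v - Da v = R.1 v
          abel
        · refine LinearMap.ext fun v => ?_
          show R.2 v + Db v - Db v = R.2 v
          abel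
      right_inv := fun S => by
        refine LinearMap.ext fun v => ?_
        refine Prod.ext ?_ ?_
        · show (S v).1 - Da v + Da v = (S v).1
          abel
        · show (S v).2 - Db v + Db v = (S v).2
          abel }
  rw [← fr_equiv e] at hbl
  have h1 : fr (fun R : (V →ₗ[F] Wa) × (V →ₗ[F] Wb) => Gb A B (Ca.prod Cb) (e R)) =
      pm m * fr (fun Ra : V →ₗ[F] Wa => finrank F (Kr A B Ca (Ra + Da)) = m) := by
    have h2 := fr_prod (fun (Ra : V →ₗ[F] Wa) (Rb : V →ₗ[F] Wb) =>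
      Gb A B (Ca.prod Cb) ((Ra + Da).prod (Rb + Db)))
    have h3 : fr (fun R : (V →ₗ[F] Wa) × (V →ₗ[F] Wb) => Gb A B (Ca.prod Cb) (e R)) =
      fr (fun x : (V →ₗ[F] Wa) × (V →ₗ[F] Wb) =>
        Gb A B (Ca.prod Cb) ((x.1 + Da).prod (x.2 + Db))) := rfl
    rw [h3, h2]
    rw [Finset.sum_congr rfl fun Ra _ => one_fix (R := Ra + Da) hC Cb Db hWb h]
    unfold fr
    rw [← Finset.sum_filter, Finset.sum_const, nsmul_eq_mul, ← Fintype.card_subtype,
      ← Nat.card_eq_fintype_card]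
    ring
  rw [h1] at hbl
  have h4 := fr_not (fun Ra : V →ₗ[F] Wa => finrank F (Kr A B Ca (Ra + Da)) = m)
  rw [h4]
  set q := fr (fun Ra : V →ₗ[F] Wa => finrank F (Kr A B Ca (Ra + Da)) = m) with hq
  have hq1 : q ≤ 1 := fr_le_one _
  set N := finrank F Wa + m with hNd
  have h5 := abs_le.1 (hC3.1 m)
  have h6 := abs_le.1 (hC3.1 (N - finrank F X))
  have h7 := abs_le.1 hbl
  have h8 : (1 / 3 : ℝ) ^ (N - finrank F X) = 3 ^ finrank F X / 3 ^ N := by
    rw [one_div_pow, eq_div_iff (by positivity), div_mul_eq_mul_div, one_mul,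
      div_eq_iff (by positivity), ← pow_add]
    congr 1
    omega
  have h9 : (3 : ℝ) ^ finrank F X / 3 ^ N ≤ 3 ^ u / 3 ^ N :=
    div_le_div_of_nonneg_right (pow_le_pow_right₀ (by norm_num) hu) (by positivity)
  rw [h8] at h6
  have h10 := pm_ge m
  have h11 : (0 : ℝ) ≤ (1 / 3 : ℝ) ^ m := by positivity
  have h12 : pm m = ∏ i ∈ Finset.range m, (1 - (1 / 3 : ℝ) ^ (i + 1)) := rfl
  have h13 : pm (N - finrank F X) =
    ∏ i ∈ Finset.range (N - finrank F X), (1 - (1 / 3 : ℝ) ^ (i + 1)) := rfl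
  rw [← h12] at h5
  rw [← h13] at h6
  have h14 : pm m * (1 - q) ≤ (1 / 3 : ℝ) ^ m + 2 * (3 ^ u / 3 ^ N) := by
    have : pm m * (1 - q) = pm m - pm m * q := by ring
    rw [this]
    linarith [h5.2, h6.1, h7.1]
  have h15 : 1 / 2 * (1 - q) ≤ pm m * (1 - q) :=
    mul_le_mul_of_nonneg_right (by linarith) (by linarith)
  linarith

/-- the fibres of a linear map -/
lemma fr_fibre {Z W : Type} [AddCommGroup Z] [Module F Z] [Finite Z] [AddCommGroup W]
    [Module F W] [Finite W] (L : Z →ₗ[F] W) (c : W) (t : ℕ)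
    (ht : t ≤ finrank F (LinearMap.range L)) : fr (fun z => L z = c) ≤ 1 / 3 ^ t := by
  by_cases hc : c ∈ LinearMap.range L
  · let π : Z →+ LinearMap.range L := L.rangeRestrict.toAddMonoidHom
    have h1 : (fun z => L z = c) =
        fun z => (fun w : LinearMap.range L => w = ⟨c, hc⟩) (π z) := by
      funext z
      apply propext
      exact ⟨fun h => Subtype.ext h, fun h => congrArg Subtype.val h⟩
    rw [h1, fr_comp π L.surjective_rangeRestrict (fun w : LinearMap.range L => w = ⟨c, hc⟩),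
      fr_single, card_mod]
    push_cast
    exact one_div_le_one_div_of_le (by positivity) (pow_le_pow_right₀ (by norm_num) ht)
  · rw [fr_false fun z hz => hc ⟨z, hz⟩]
    positivity

/-- prescribed values at independent vectors -/
lemma fr_eval {I W : Type} [Fintype I] [AddCommGroup W] [Module F W] [Finite W] (v : I → V)
    (hv : LinearIndependent F v) (w : I → W) :
    fr (fun R : V →ₗ[F] W => ∀ i, R (v i) = w i) =
      1 / (3 ^ finrank F W) ^ Fintype.card I := by
  let π : (V →ₗ[F] W) →+ (I → W) :=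
    { toFun := fun R i => R (v i)
      map_zero' := rfl
      map_add' := fun _ _ => rfl }
  have hπ : Surjective π := by
    have hinj : Injective (Fintype.linearCombination F v) :=
      linearIndependent_iff_injective_fintypeLinearCombination.1 hv
    obtain ⟨l, hl⟩ := (Fintype.linearCombination F v).exists_leftInverse_of_injective
      (LinearMap.ker_eq_bot.2 hinj)
    intro g
    refine ⟨(Fintype.linearCombination F g) ∘ₗ l, ?_⟩
    funext i
    show Fintype.linearCombination F g (l (v i)) = g i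
    have h1 : v i = Fintype.linearCombination F v (Pi.single i 1) := by
      rw [Fintype.linearCombination_apply_single, one_smul]
    rw [h1, ← LinearMap.comp_apply l, hl, LinearMap.id_apply,
      Fintype.linearCombination_apply_single, one_smul]
  have h1 : (fun R : V →ₗ[F] W => ∀ i, R (v i) = w i) = fun R => (fun g => g = w) (π R) := by
    funext R
    exact propext ⟨fun h => funext h, fun h i => congrFun h i⟩
  rw [h1, fr_comp π hπ (fun g => g = w), fr_single, Nat.card_fun, card_mod,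
    Nat.card_eq_fintype_card (α := I)]
  push_cast
  rfl

end one

section many

variable {E : Type} [Fintype E] {X Y : E → Type} {V Wa Wb : Type}
  [∀ e, AddCommGroup (X e)] [∀ e, Module F (X e)] [∀ e, Finite (X e)]
  [∀ e, AddCommGroup (Y e)] [∀ e, Module F (Y e)] [∀ e, Finite (Y e)]
  [AddCommGroup V] [Module F V] [Finite V] [AddCommGroup Wa] [Module F Wa] [Finite Wa]
  [AddCommGroup Wb] [Module F Wb] [Finite Wb]
  (A : ∀ e, X e →ₗ[F] Y e) (B : ∀ e, V →ₗ[F] Y e) (Ca : ∀ e, X e →ₗ[F] Wa)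
  (Cb : ∀ e, X e →ₗ[F] Wb) (Da : E → (V →ₗ[F] Wa)) (Db : E → (V →ₗ[F] Wb))

/-- the kernels -/
abbrev Ke (Ra : V →ₗ[F] Wa) (e : E) : Submodule F (X e × V) := Kr (A e) (B e) (Ca e) (Ra + Da e)

/-- the sum of the projections -/
noncomputable def sg (Ra : V →ₗ[F] Wa) : (∀ e, Ke A B Ca Da Ra e) →ₗ[F] V :=
  ∑ e, (sn (A e) (B e) (Ca e) (Ra + Da e)) ∘ₗ LinearMap.proj e

lemma sg_apply (Ra : V →ₗ[F] Wa) (f : ∀ e, Ke A B Ca Da Ra e) :
    sg A B Ca Da Ra f = ∑ e, (f e).1.2 := by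
  unfold sg
  rw [LinearMap.sum_apply]
  rfl

/-- the fibre over a good `Ra` -/
lemma step1 (Ra : V →ₗ[F] Wa) {m : ℕ} (hWb : finrank F Wb = m)
    (hd : ∀ e, finrank F (Ke A B Ca Da Ra e) = m) (hs : Injective (sg A B Ca Da Ra)) :
    fr (fun Rb : V →ₗ[F] Wb => ∀ e, Gb (A e) (B e) ((Ca e).prod (Cb e))
      ((Ra + Da e).prod (Rb + Db e))) = pm m ^ Fintype.card E := by
  let π : (V →ₗ[F] Wb) →+ (∀ e, Ke A B Ca Da Ra e →ₗ[F] Wb) :=
    { toFun := fun R e => R ∘ₗ sn (A e) (B e) (Ca e) (Ra + Da e)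
      map_zero' := by
        funext e
        exact LinearMap.zero_comp _
      map_add' := fun R S => by
        funext e
        exact LinearMap.add_comp _ _ _ }
  have hπ : Surjective π := by
    obtain ⟨l, hl⟩ := (sg A B Ca Da Ra).exists_leftInverse_of_injective
      (LinearMap.ker_eq_bot.2 hs)
    intro g
    refine ⟨(∑ e, g e ∘ₗ LinearMap.proj e) ∘ₗ l, ?_⟩
    funext e
    refine LinearMap.ext fun k => ?_
    have h1 : sn (A e) (B e) (Ca e) (Ra + Da e) k = sg A B Ca Da Ra (Pi.single e k) := by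
      rw [sg_apply, Finset.sum_eq_single e]
      · rw [Pi.single_eq_same]
        rfl
      · intro e' _ he'
        rw [Pi.single_eq_of_ne he']
        rfl
      · intro he
        exact absurd (Finset.mem_univ e) he
    show (∑ e, g e ∘ₗ LinearMap.proj e) (l (sn (A e) (B e) (Ca e) (Ra + Da e) k)) = g e k
    have h2 : l (sg A B Ca Da Ra (Pi.single e k)) = Pi.single e k := by
      rw [← LinearMap.comp_apply, hl, LinearMap.id_apply]
    rw [h1, h2, LinearMap.sum_apply, Finset.sum_eq_single e]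
    · show g e ((Pi.single e k : ∀ e, Ke A B Ca Da Ra e) e) = g e k
      rw [Pi.single_eq_same]
    · intro e' _ he'
      show g e' ((Pi.single e k : ∀ e, Ke A B Ca Da Ra e) e') = 0
      rw [Pi.single_eq_of_ne he', map_zero]
    · intro he
      exact absurd (Finset.mem_univ e) he
  let c : ∀ e, Ke A B Ca Da Ra e →ₗ[F] Wb := fun e =>
    ((Cb e).coprod (Db e)) ∘ₗ (Ke A B Ca Da Ra e).subtype
  have h1 : (fun Rb : V →ₗ[F] Wb => ∀ e, Gb (A e) (B e) ((Ca e).prod (Cb e))
      ((Ra + Da e).prod (Rb + Db e))) =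
      fun Rb => (fun h : (∀ e, Ke A B Ca Da Ra e →ₗ[F] Wb) => ∀ e, Injective ((h + c) e))
        (π Rb) := by
    funext Rb
    apply propext
    refine forall_congr' fun e => ?_
    rw [Gb_iff]
    have : ((Cb e).coprod (Rb + Db e)) ∘ₗ (Kr (A e) (B e) (Ca e) (Ra + Da e)).subtype =
        (π Rb + c) e := by
      refine LinearMap.ext fun k => ?_
      show Cb e k.1.1 + (Rb k.1.2 + Db e k.1.2) = Rb k.1.2 + (Cb e k.1.1 + Db e k.1.2)
      abel
    rw [this]
  rw [h1, fr_comp π hπ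
      (fun h : (∀ e, Ke A B Ca Da Ra e →ₗ[F] Wb) => ∀ e, Injective ((h + c) e)),
    fr_shift c (fun h : (∀ e, Ke A B Ca Da Ra e →ₗ[F] Wb) => ∀ e, Injective (h e)),
    fr_pi (fun e (h : Ke A B Ca Da Ra e →ₗ[F] Wb) => Injective h),
    Finset.prod_congr rfl fun e _ => fr_inj (hd e) hWb, Finset.prod_const, Finset.card_univ]

/-- the conditions for a minimal relation -/
def Rel (e0 : E) (I : Finset E) (x : ∀ e, X e) (Ra : V →ₗ[F] Wa) (v : I → V) : Prop :=
  LinearIndependent F v ∧ (∀ e : I, Ra (v e) = -(Ca e (x e)) - Da e (v e)) ∧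
    Ra (-∑ e, v e) = -(Ca e0 (x e0)) - Da e0 (-∑ e, v e)

/-- if the sum map is not injective there is a minimal relation -/
lemma not_dir (hCa : ∀ e, Injective (Ca e)) (Ra : V →ₗ[F] Wa)
    (h : ¬ Injective (sg A B Ca Da Ra)) :
    ∃ p : E × Finset E × (∀ e, X e), p.1 ∉ p.2.1 ∧ p.2.1.Nonempty ∧
      ∃ v : p.2.1 → V, Rel Ca Da p.1 p.2.1 p.2.2 Ra v := by
  have h0 : ∃ f : ∀ e, Ke A B Ca Da Ra e, f ≠ 0 ∧ sg A B Ca Da Ra f = 0 := by
    by_contra hc
    push Not at hc
    apply h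
    refine (injective_iff_map_eq_zero _).2 fun f hf => ?_
    by_contra hf0
    exact hc f hf0 hf
  let S : Set (∀ e, Ke A B Ca Da Ra e) := {f | f ≠ 0 ∧ sg A B Ca Da Ra f = 0}
  let sp : (∀ e, Ke A B Ca Da Ra e) → Finset E := fun f => Finset.univ.filter fun e => f e ≠ 0
  obtain ⟨f, ⟨hf0, hf1⟩, hmin⟩ := Set.exists_min_image S (fun f => (sp f).card)
    (Set.toFinite S) h0
  rw [sg_apply] at hf1
  have hne : ∀ e, f e ≠ 0 → (f e).1.2 ≠ 0 := by
    intro e he h2
    apply he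
    exact sn_inj (hCa e) (by rw [map_zero]; exact h2)
  obtain ⟨e0, he0⟩ : ∃ e, f e ≠ 0 := by
    by_contra hc
    push Not at hc
    exact hf0 (funext hc)
  have hmem : e0 ∈ sp f := Finset.mem_filter.2 ⟨Finset.mem_univ _, he0⟩
  set I := (sp f).erase e0 with hI
  have hsum : (f e0).1.2 + ∑ e ∈ I, (f e).1.2 = 0 := by
    rw [hI, Finset.add_sum_erase (sp f) (fun e => (f e).1.2) hmem, ← hf1]
    refine Finset.sum_subset (Finset.subset_univ _) fun e _ he => ?_
    have : f e = 0 := by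
      by_contra hc
      exact he (Finset.mem_filter.2 ⟨Finset.mem_univ _, hc⟩)
    rw [this]
    rfl
  have hsum2 : -∑ e : I, (f e).1.2 = (f e0).1.2 := by
    rw [Finset.sum_coe_sort I (fun e => (f e).1.2)]
    exact (eq_neg_of_add_eq_zero_left hsum).symm
  have hrel : ∀ e, Ra (f e).1.2 = -(Ca e (f e).1.1) - Da e (f e).1.2 := by
    intro e
    have h2 := (mem_Kr.1 (f e).2).2
    rw [LinearMap.add_apply] at h2
    rw [eq_sub_iff_add_eq]
    exact eq_neg_of_add_eq_zero_right h2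
  refine ⟨(e0, I, fun e => (f e).1.1), Finset.notMem_erase _ _, ?_, fun e => (f e).1.2, ?_, ?_, ?_⟩
  · by_contra hc
    rw [Finset.not_nonempty_iff_eq_empty] at hc
    simp only at hc
    rw [hc, Finset.sum_empty, add_zero] at hsum
    exact hne e0 he0 hsum
  · rw [Fintype.linearIndependent_iff]
    intro g hg i
    by_contra hi
    let f' : ∀ e, Ke A B Ca Da Ra e := fun e => if h : e ∈ I then g ⟨e, h⟩ • f e else 0
    have hf' : ∀ e : I, f' e = g e • f e := fun e => dif_pos e.2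
    have h2 : f' ∈ S := by
      constructor
      · intro h3
        have h4 : g i • f i = 0 := by
          rw [← hf' i, h3]
          rfl
        rcases smul_eq_zero.1 h4 with h5 | h5
        · exact hi h5
        · exact (Finset.mem_filter.1 (Finset.mem_of_mem_erase i.2)).2 h5
      · rw [sg_apply, ← Finset.sum_subset (Finset.subset_univ I), ← Finset.sum_coe_sort I
          (fun e => (f' e).1.2)]
        · rw [← hg]
          refine Finset.sum_congr rfl fun e _ => ?_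
          rw [hf' e]
          rfl
        · intro e _ he
          have : f' e = 0 := dif_neg he
          rw [this]
          rfl
    have h3 := hmin f' h2
    have h4 : sp f' ⊆ I := by
      intro e he
      by_contra hc
      exact (Finset.mem_filter.1 he).2 (dif_neg hc)
    have h5 := Finset.card_le_card h4
    have h6 : I.card < (sp f).card := Finset.card_erase_lt_of_mem hmem
    exact absurd (h3.trans h5) (not_le.2 h6)
  · intro e
    exact hrel e
  · show Ra (-∑ e : I, (f e).1.2) = -(Ca e0 (f e0).1.1) - Da e0 (-∑ e : I, (f e).1.2)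
    rw [hsum2]
    exact hrel e0

/-- the proportion for fixed data -/
lemma dir_fix (e0 : E) (I : Finset E) (x : ∀ e, X e) (he0 : e0 ∉ I) (hI : I.Nonempty)
    {m t : ℕ} (hV : finrank F V ≤ finrank F Wa + m)
    (ht : ∀ e e', e ≠ e' → t ≤ finrank F (LinearMap.range (Da e - Da e'))) :
    fr (fun Ra : V →ₗ[F] Wa => ∃ v : I → V, Rel Ca Da e0 I x Ra v) ≤
      3 ^ (Fintype.card E * m) / 3 ^ t := by
  let L : (I → V) →ₗ[F] Wa := ∑ e : I, (Da e - Da e0) ∘ₗ LinearMap.proj e
  let c : Wa := -(∑ e : I, Ca e (x e)) - Ca e0 (x e0)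
  have hL : ∀ v : I → V, L v = ∑ e : I, Da e (v e) - Da e0 (∑ e, v e) := by
    intro v
    show (∑ e : I, (Da e - Da e0) ∘ₗ LinearMap.proj e : (I → V) →ₗ[F] Wa) v = _
    rw [LinearMap.sum_apply, map_sum, ← Finset.sum_sub_distrib]
    rfl
  have hLt : t ≤ finrank F (LinearMap.range L) := by
    obtain ⟨e1, he1⟩ := hI
    have hne : e1 ≠ e0 := fun h => he0 (h ▸ he1)
    refine (ht e1 e0 hne).trans (Submodule.finrank_mono ?_)
    rintro _ ⟨z, rfl⟩
    refine ⟨Pi.single ⟨e1, he1⟩ z, ?_⟩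
    show (∑ e : I, (Da e - Da e0) ∘ₗ LinearMap.proj e : (I → V) →ₗ[F] Wa)
      (Pi.single ⟨e1, he1⟩ z) = _
    rw [LinearMap.sum_apply, Finset.sum_eq_single (⟨e1, he1⟩ : I)]
    · show (Da e1 - Da e0) ((Pi.single (⟨e1, he1⟩ : I) z : I → V) ⟨e1, he1⟩) = (Da e1 - Da e0) z
      rw [Pi.single_eq_same]
    · intro e' _ he'
      show (Da e' - Da e0) ((Pi.single (⟨e1, he1⟩ : I) z : I → V) e') = 0
      rw [Pi.single_eq_of_ne he', map_zero]
    · intro h
      exact absurd (Finset.mem_univ _) h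
  have hrel : ∀ (Ra : V →ₗ[F] Wa) (v : I → V), Rel Ca Da e0 I x Ra v → L v = c := by
    rintro Ra v ⟨-, h1, h2⟩
    rw [map_neg, map_neg, map_sum, sub_neg_eq_add] at h2
    rw [Finset.sum_congr rfl fun e _ => h1 e] at h2
    rw [Finset.sum_sub_distrib, Finset.sum_neg_distrib] at h2
    rw [hL]
    show _ = -(∑ e : I, Ca e (x e)) - Ca e0 (x e0)
    have h3 : ∑ e : I, Da e (v e) - Da e0 (∑ e, v e) =
        -(-∑ e : I, Ca e (x e) - ∑ e : I, Da e (v e)) - ∑ e : I, Ca e (x e) -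
          Da e0 (∑ e, v e) := by abel
    rw [h3, h2]
    abel
  let T := {v : I → V // L v = c ∧ LinearIndependent F v}
  have hle : fr (fun Ra : V →ₗ[F] Wa => ∃ v : I → V, Rel Ca Da e0 I x Ra v) ≤
      fr (fun Ra : V →ₗ[F] Wa => ∃ v : T, ∀ e : I, Ra (v.1 e) = -(Ca e (x e)) - Da e (v.1 e)) := by
    refine fr_mono fun Ra hR => ?_
    obtain ⟨v, hv⟩ := hR
    exact ⟨⟨v, hrel Ra v hv, hv.1⟩, hv.2.1⟩
  have := Fintype.ofFinite T
  have h1 := fr_exists (fun (v : T) (Ra : V →ₗ[F] Wa) =>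
    ∀ e : I, Ra (v.1 e) = -(Ca e (x e)) - Da e (v.1 e))
    (ε := 1 / (3 ^ finrank F Wa) ^ Fintype.card I)
    (fun v => (fr_eval v.1 v.2.2 (fun e : I => -(Ca e (x e)) - Da e (v.1 e))).le)
  have h2 : (Fintype.card T : ℝ) ≤ 1 / 3 ^ t * (3 ^ finrank F V) ^ Fintype.card I := by
    have h3 : Fintype.card T ≤ Nat.card {v : I → V // L v = c} := by
      rw [← Nat.card_eq_fintype_card]
      exact Nat.card_le_card_of_injective
        (fun v : T => (⟨v.1, v.2.1⟩ : {v : I → V // L v = c}))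
        (fun v w hvw => Subtype.ext
          (congrArg (fun z : {v : I → V // L v = c} => z.1) hvw))
    have h4 := card_fr (fun v : I → V => L v = c)
    have h5 := fr_fibre L c t hLt
    have h6 : (Nat.card (I → V) : ℝ) = (3 ^ finrank F V) ^ Fintype.card I := by
      rw [Nat.card_fun, card_mod, Nat.card_eq_fintype_card (α := I)]
      push_cast
      rfl
    calc (Fintype.card T : ℝ) ≤ (Nat.card {v : I → V // L v = c} : ℝ) := by exact_mod_cast h3
      _ = fr (fun v : I → V => L v = c) * Nat.card (I → V) := h4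
      _ ≤ 1 / 3 ^ t * Nat.card (I → V) := mul_le_mul_of_nonneg_right h5 (by positivity)
      _ = _ := by rw [h6]
  have hcI : Fintype.card I ≤ Fintype.card E := by
    rw [Fintype.card_coe]
    exact Finset.card_le_univ I
  refine hle.trans (h1.trans ?_)
  have h7 : (Fintype.card T : ℝ) * (1 / (3 ^ finrank F Wa) ^ Fintype.card I) ≤
      (1 / 3 ^ t * (3 ^ finrank F V) ^ Fintype.card I) *
        (1 / (3 ^ finrank F Wa) ^ Fintype.card I) :=
    mul_le_mul_of_nonneg_right h2 (by positivity)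
  refine h7.trans ?_
  have h8 : ((3 : ℝ) ^ finrank F V) ^ Fintype.card I ≤
      (3 ^ finrank F Wa) ^ Fintype.card I * 3 ^ (Fintype.card E * m) := by
    calc ((3 : ℝ) ^ finrank F V) ^ Fintype.card I ≤
        (3 ^ (finrank F Wa + m)) ^ Fintype.card I :=
          pow_le_pow_left₀ (by positivity) (pow_le_pow_right₀ (by norm_num) hV) _
      _ = (3 ^ finrank F Wa) ^ Fintype.card I * 3 ^ (m * Fintype.card I) := by
          rw [pow_add, mul_pow, ← pow_mul 3 m]
      _ ≤ _ := by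
          refine mul_le_mul_of_nonneg_left (pow_le_pow_right₀ (by norm_num) ?_) (by positivity)
          rw [mul_comm]
          exact Nat.mul_le_mul_right m hcI
  have h9 : (0 : ℝ) < (3 ^ finrank F Wa) ^ Fintype.card I := by positivity
  have h10 : (0 : ℝ) < 3 ^ t := by positivity
  rw [mul_one_div, div_le_div_iff₀ h9 h10, one_div, inv_mul_eq_div, div_mul_cancel₀ _ h10.ne']
  linarith

end many

end Absx

open Absx

/-- JL-ABS -/
theorem abs_law : S_ABS := by
  intro hC3 E _ X Y V Wa Wb _ _ _ _ _ _ _ _ _ _ _ _ _ _ _ A B Ca Cb Da Db u m t hB hCa hWb hdim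
    hu hV ht
  have := Fintype.ofFinite (V →ₗ[F] Wa)
  set n := Fintype.card E with hn
  set N := finrank F Wa + m with hN
  let Q : (V →ₗ[F] Wa) → Prop := fun Ra =>
    (∀ e, finrank F (Ke A B Ca Da Ra e) = m) ∧ Injective (sg A B Ca Da Ra)
  have hp := fr_prod (fun (Ra : V →ₗ[F] Wa) (Rb : V →ₗ[F] Wb) =>
    ∀ e, Gb (A e) (B e) ((Ca e).prod (Cb e)) ((Ra + Da e).prod (Rb + Db e)))
  have hmain : |fr (fun R : (V →ₗ[F] Wa) × (V →ₗ[F] Wb) =>
      ∀ e, Gb (A e) (B e) ((Ca e).prod (Cb e)) ((R.1 + Da e).prod (R.2 + Db e))) - pm m ^ n| ≤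
      fr (fun Ra => ¬ Q Ra) := by
    rw [hp]
    exact avg _ (pm m ^ n) (pow_nonneg (pm_nonneg m) n) (pow_le_one₀ (pm_nonneg m) (pm_le_one m))
      (fun Ra => fr_nonneg _) (fun Ra => fr_le_one _) Q
      (fun Ra hQ => step1 A B Ca Cb Da Db Ra hWb hQ.1 hQ.2)
  -- the exceptional set
  have hb1 : fr (fun Ra : V →ₗ[F] Wa => ∃ e, finrank F (Ke A B Ca Da Ra e) ≠ m) ≤
      n * (2 * (1 / 3) ^ m + 4 * (3 ^ u / 3 ^ N)) :=
    fr_exists (fun (e : E) (Ra : V →ₗ[F] Wa) => finrank F (Ke A B Ca Da Ra e) ≠ m) fun e =>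
      one_dim hC3 (A e) (B e) (Ca e) (Cb e) (Da e) (Db e) (hB e) (hCa e) hWb (hdim e) (hu e)
  have : ∀ e, Fintype (X e) := fun e => Fintype.ofFinite (X e)
  have hb2 : fr (fun Ra : V →ₗ[F] Wa => ¬ Injective (sg A B Ca Da Ra)) ≤
      n * 2 ^ n * (3 ^ (n * (u + m)) / 3 ^ t) := by
    have h1 : fr (fun Ra : V →ₗ[F] Wa => ¬ Injective (sg A B Ca Da Ra)) ≤
        fr (fun Ra : V →ₗ[F] Wa => ∃ p : E × Finset E × (∀ e, X e), p.1 ∉ p.2.1 ∧
          p.2.1.Nonempty ∧ ∃ v : p.2.1 → V, Rel Ca Da p.1 p.2.1 p.2.2 Ra v) :=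
      fr_mono fun Ra hR => not_dir A B Ca Da hCa Ra hR
    have h2 := fr_exists (fun (p : E × Finset E × (∀ e, X e)) (Ra : V →ₗ[F] Wa) =>
      p.1 ∉ p.2.1 ∧ p.2.1.Nonempty ∧ ∃ v : p.2.1 → V, Rel Ca Da p.1 p.2.1 p.2.2 Ra v)
      (ε := 3 ^ (n * m) / 3 ^ t) (fun p => by
        by_cases h3 : p.1 ∉ p.2.1 ∧ p.2.1.Nonempty
        · refine le_trans (fr_mono fun Ra hR => hR.2.2) ?_
          exact dir_fix Ca Da p.1 p.2.1 p.2.2 h3.1 h3.2 hV ht
        · rw [fr_false fun Ra hR => h3 ⟨hR.1, hR.2.1⟩]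
          positivity)
    refine h1.trans (h2.trans ?_)
    have h3 : (Fintype.card (E × Finset E × (∀ e, X e)) : ℝ) ≤ n * 2 ^ n * 3 ^ (n * u) := by
      rw [Fintype.card_prod, Fintype.card_prod, Fintype.card_finset, Fintype.card_pi]
      have h4 : ((∏ e, Fintype.card (X e) : ℕ) : ℝ) ≤ 3 ^ (n * u) := by
        have h5 : ∏ e, Fintype.card (X e) ≤ ∏ _e : E, 3 ^ u := by
          refine Finset.prod_le_prod' fun e _ => ?_
          rw [← Nat.card_eq_fintype_card, card_mod]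
          exact Nat.pow_le_pow_right (by norm_num) (hu e)
        rw [Finset.prod_const, Finset.card_univ, ← pow_mul, ← hn, mul_comm u n] at h5
        exact_mod_cast h5
      push_cast
      push_cast at h4
      rw [← hn]
      have h6 : (0 : ℝ) ≤ n * 2 ^ n := by positivity
      nlinarith [mul_le_mul_of_nonneg_left h4 h6]
    have h7 : (Fintype.card (E × Finset E × (∀ e, X e)) : ℝ) * (3 ^ (n * m) / 3 ^ t) ≤
        (n * 2 ^ n * 3 ^ (n * u)) * (3 ^ (n * m) / 3 ^ t) :=
      mul_le_mul_of_nonneg_right h3 (by positivity)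
    refine h7.trans (le_of_eq ?_)
    rw [mul_add, pow_add]
    ring
  have hb : fr (fun Ra => ¬ Q Ra) ≤ n * (2 * (1 / 3) ^ m + 4 * (3 ^ u / 3 ^ N)) +
      n * 2 ^ n * (3 ^ (n * (u + m)) / 3 ^ t) := by
    refine le_trans (fr_mono (Q := fun Ra => (∃ e, finrank F (Ke A B Ca Da Ra e) ≠ m) ∨
      ¬ Injective (sg A B Ca Da Ra)) fun Ra hR => ?_) ((fr_or _ _).trans (add_le_add hb1 hb2))
    by_contra hc
    push Not at hc
    exact hR hc
  have hc3 : |pm m ^ n - c3 ^ n| ≤ n * (1 / 3) ^ m := by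
    refine (pow_dist (pm m) c3 (pm_nonneg m) (pm_le_one m) hC3.2.1.le hC3.2.2.1.le n).trans ?_
    exact mul_le_mul_of_nonneg_left (hC3.1 m) (by positivity)
  unfold absErr
  have h3m : (0 : ℝ) ≤ (1 / 3 : ℝ) ^ m := by positivity
  have hn0 : (0 : ℝ) ≤ n := by positivity
  have hfin := abs_sub_le (fr (fun R : (V →ₗ[F] Wa) × (V →ₗ[F] Wb) =>
      ∀ e, Gb (A e) (B e) ((Ca e).prod (Cb e)) ((R.1 + Da e).prod (R.2 + Db e))))
    (pm m ^ n) (c3 ^ n)
  nlinarith [mul_nonneg hn0 h3m]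

end Pool.Agent.R432.JL
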