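import Pool.Agent.R432.JL.Stm
import Pool.Agent.Y759.CX.LA

/-!
# Project JL: statement of the abstract joint law
-/

set_option autoImplicit false

open scoped Classical

namespace Pool.Agent.R432.JL

open Function Module
open Pool.Agent.Y703.CX
open Pool.Agent.Y759.CX

/-- JL-ABS: the joint law for block maps with the same random part. -/
def S_ABS : Prop := S_C3 → ∀ (E : Type) [Fintype E] (X Y : E → Type) (V Wa Wb : Type)
  [∀ e, AddCommGroup (X e)] [∀ e, Module F (X e)] [∀ e, Finite (X e)]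
  [∀ e, AddCommGroup (Y e)] [∀ e, Module F (Y e)] [∀ e, Finite (Y e)]
  [AddCommGroup V] [Module F V] [Finite V] [AddCommGroup Wa] [Module F Wa] [Finite Wa]
  [AddCommGroup Wb] [Module F Wb] [Finite Wb]
  (A : ∀ e, X e →ₗ[F] Y e) (B : ∀ e, V →ₗ[F] Y e) (Ca : ∀ e, X e →ₗ[F] Wa)
  (Cb : ∀ e, X e →ₗ[F] Wb) (Da : E → (V →ₗ[F] Wa)) (Db : E → (V →ₗ[F] Wb)) (u m t : ℕ),
  (∀ e, Surjective (B e)) → (∀ e, Injective (Ca e)) → finrank F Wb = m →
  (∀ e, finrank F (X e) + finrank F V = finrank F (Y e) + (finrank F Wa + m)) →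
  (∀ e, finrank F (X e) ≤ u) → finrank F V ≤ finrank F Wa + m →
  (∀ e e', e ≠ e' → t ≤ finrank F (LinearMap.range (Da e - Da e'))) →
  |fr (fun R : (V →ₗ[F] Wa) × (V →ₗ[F] Wb) =>
      ∀ e, Gb (A e) (B e) ((Ca e).prod (Cb e)) ((R.1 + Da e).prod (R.2 + Db e))) -
    c3 ^ Fintype.card E| ≤ absErr (Fintype.card E) u m t (finrank F Wa + m)

end Pool.Agent.R432.JL
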